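import Pool.Agent.helper62.VQ.SpecE
import Pool.Agent.helper11.VQ.Spec3i

/-!
# MP_07c750 (QUE, weight 10), project VQ, block 5, second part: from the potentials of VQ/Defs to the abstract fields of SpecE

RULES as in SpecE (rows `vqe:XXX`, file `Pool/Agent/<seat>/VQE/XXX.lean`, `import Pool.Agent.helper62.VQ.SpecF`, namespace `Pool.Agent.VQE`).
Final row IUA: `IUW_stmt` of helper11's Spec3i.
-/

open scoped MatrixGroups ContDiff Topology UpperHalfPlane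
open UpperHalfPlane MeasureTheory Filter Set

namespace Pool.Agent.VQE

open Pool.Agent.RS

noncomputable section

/-- bounds for a function, its derivative, and the Lipschitz constant of the derivative -/
structure CB {V W : Type} [NormedAddCommGroup V] [NormedSpace ℝ V] [NormedAddCommGroup W] [NormedSpace ℝ W] (s : Set V) (A : ℝ) (G : V → W) : Prop where
  diff : ∀ x ∈ s, DifferentiableAt ℝ G x
  b0 : ∀ x ∈ s, ‖G x‖ ≤ A
  b1 : ∀ x ∈ s, ‖fderiv ℝ G x‖ ≤ A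
  b2 : ∀ x ∈ s, ∀ y ∈ s, ‖fderiv ℝ G x - fderiv ℝ G y‖ ≤ A * ‖x - y‖

/-- the base point of `D` in the disc coordinate: `cd (D • I)` for `D` in `SL(2, ℝ)` -/
def ze (M : Fin 2 → Fin 2 → ℝ) : ℂ := 2 * (((M 0 1 + M 1 0 : ℝ) : ℂ) + ((M 0 0 - M 1 1 : ℝ) : ℂ) * Complex.I) /
  (((M 0 1 - M 1 0 : ℝ) : ℂ) + ((M 0 0 + M 1 1 : ℝ) : ℂ) * Complex.I)

/-- the derivative at `0` of the action of `D` in the disc coordinate -/
def et (M : Fin 2 → Fin 2 → ℝ) : ℂ := -4 / (((M 0 1 - M 1 0 : ℝ) : ℂ) + ((M 0 0 + M 1 1 : ℝ) : ℂ) * Complex.I) ^ 2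

/-- the unit matrix as a function -/
def one2 : Fin 2 → Fin 2 → ℝ := fun i j => if i = j then 1 else 0

/-- **Row PZE** (the disc coordinate and the frames; medium). `D • I = (ai+b)/(ci+d)`, `D•I - i = ((b+c) + i(a-d))/(ci+d)`, `D•I + i = ((b-c) + i(a+d))/(ci+d)`. `Ug U (gD) v = U(g • (D • cdi v)) = Ug U g (m v)`, `m v = cd (D • cdi v)` near `v = 0` (`cdi (cd z) = z`, `‖cd z‖ < 2`), `m` is holomorphic at `0` with the derivative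
`cd'(D•i) D'(i) cdi'(0) = [4i/(w+i)²]·[1/(ci+d)²]·i = -4/((b-c)+i(a+d))²`, `w = D•i`; chain rule for `fderiv ℝ` (`Ug U g` is differentiable by `CD ∞`, the real derivative of `m` is multiplication by `m'(0)`). -/
def PZE_stmt : Prop := (∀ D : SL(2, ℝ), VQ.cd (D • I) = ze (mt D)) ∧
  (∀ (U : ℍ → ℝ) (g D : SL(2, ℝ)), U ((g * D) • I) = VQ.Ug U g (ze (mt D))) ∧
  ∀ (U : ℍ → ℝ) (g D : SL(2, ℝ)), QU.CD ∞ U → VQ.n2 U (g * D) = fderiv ℝ (VQ.Ug U g) (ze (mt D)) (et (mt D) * Complex.I)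

/-- **Row PZC** (PURE; short-medium). On the compact convex ball `‖M - 1‖ ≤ 1/10` (sup norm) the denominators are `≥ 1.6` in modulus and `‖ze‖ ≤ 1/2`; `ze`, `et` are smooth on a neighbourhood, so their derivatives of order `≤ 2` are bounded on the ball (compactness), mean value inequality for `b2` (convexity). -/
def PZC_stmt : Prop := ∃ K : ℝ, 1 ≤ K ∧ CB (Metric.closedBall one2 (1 / 10)) K ze ∧ CB (Metric.closedBall one2 (1 / 10)) K et ∧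
  ∀ M ∈ Metric.closedBall one2 (1 / 10), ‖ze M‖ ≤ 1 / 2

/-- **Row PCA** (PURE, calculus of `CB`; medium). `(GH)' = G'H + GH'`; `‖(GH)'(x) - (GH)'(y)‖` is estimated with `‖G x - G y‖ ≤ A‖x-y‖` (mean value inequality, `s` convex, `G` differentiable at the points of `s`: `Convex.norm_image_sub_le_of_norm_fderiv_le`). -/
def PCA_stmt : Prop := ∀ (V : Type) [NormedAddCommGroup V] [NormedSpace ℝ V] (s : Set V), Convex ℝ s →
  (∀ (A B : ℝ) (G H : V → ℝ), 0 ≤ A → 0 ≤ B → CB s A G → CB s B H → CB s (A + B) (fun x => G x + H x) ∧ CB s (4 * A * B) (fun x => G x * H x)) ∧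
  (∀ (A C : ℝ) (t : Set ℂ) (Φ : ℂ → ℝ) (ζ : V → ℂ), 0 ≤ A → 1 ≤ C → CB t A Φ → CB s C ζ → (∀ x ∈ s, ζ x ∈ t) → CB s (3 * C ^ 2 * A) (fun x => Φ (ζ x))) ∧
  ∀ (A C : ℝ) (t : Set ℂ) (Φ : ℂ → ℂ →L[ℝ] ℝ) (ζ ξ : V → ℂ), 0 ≤ A → 1 ≤ C → CB t A Φ → CB s C ζ → CB s C ξ → (∀ x ∈ s, ζ x ∈ t) →
    CB s (12 * C ^ 3 * A) (fun x => Φ (ζ x) (ξ x))

/-- **Row PCI** (PURE, square roots; short-medium). `u ↦ √(1+u)` and `u ↦ 1/√(1+u)` on `|u| ≤ 1/2`: derivatives of order one and two are bounded by `2`; chain rule and mean value inequality; `|√(1+u) - 1| ≤ |u|`. -/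
def PCI_stmt : Prop := ∀ (V : Type) [NormedAddCommGroup V] [NormedSpace ℝ V] (s : Set V) (A : ℝ) (G : V → ℝ), Convex ℝ s → 0 ≤ A → A ≤ 1 / 2 → CB s A G →
  CB s (10 * A) (fun x => Real.sqrt (1 + G x) - 1) ∧ CB s 10 (fun x => (Real.sqrt (1 + G x))⁻¹)

/-- **Row PSD** (PURE, second differences; short-medium). `‖D - 1‖, ‖E - 1‖ ≤ 1/25` (sup norm of the entries, `nm`), so `D, E, ED` are in the ball. `k(M) = G(EM) - G(M)` on `‖M - 1‖ ≤ 1/25`, `k'(M)h = G'(EM)(Eh) - G'(M)h`, `‖·‖ ≤ A‖EM - M‖‖Eh‖ + A‖(E-1)h‖ ≤ 10 A nm E ‖h‖` (products of `2×2` matrices: `‖MN‖ ≤ 2‖M‖‖N‖`);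
`k(D) - k(1)` by the mean value inequality on the segment. -/
def PSD_stmt : Prop := ∀ (A : ℝ) (G : (Fin 2 → Fin 2 → ℝ) → ℝ), 0 ≤ A → CB (Metric.closedBall one2 (1 / 10)) A G →
  ∀ D E : SL(2, ℝ), nm D ≤ 1 / 25 → nm E ≤ 1 / 25 →
    |G (mt D) - G one2| ≤ A * nm D ∧ |G (mt (E * D)) - G (mt E) - G (mt D) + G one2| ≤ 10 * A * nm D * nm E

/-- **Row PFB** (the fields are `CB`; medium; from PZE, PZC, PCA, PCI). `Φ = Ug U g - 1` on the closed unit disc: `Pot.near` (`n ≤ 3`) gives `CB (closedBall 0 1) (C δ) Φ` and `CB (closedBall 0 1) (C δ) (fderiv ℝ Φ)` (`iteratedFDeriv` of order `n ≤ 3` against `fderiv`: `norm_iteratedFDeriv_fderiv`, `norm_fderiv_iteratedFDeriv`;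
mean value inequality on the convex disc; `fderiv` of `Ug U g - 1` is that of `Ug U g`). `rho U 0 (gD) = √(Ug U g (ze D))`, `-kap U 0 (gD)/2 = -fderiv (Ug U g)(ze D)(et D · i)/(4√(Ug U g (ze D)))` (PZE): PCA, PCI. -/
def PFB_stmt : Prop := ∃ K : ℝ, 1 ≤ K ∧ ∀ (Γ : Subgroup SL(2, ℝ)) (δ : ℝ) (B : ℕ → ℝ) (U : ℍ → ℝ), 0 ≤ δ → K * δ ≤ 1 / 2 → VQ.Pot Γ δ B U → ∀ g : SL(2, ℝ),
  ∃ G H : (Fin 2 → Fin 2 → ℝ) → ℝ, CB (Metric.closedBall one2 (1 / 10)) (K * δ) G ∧ CB (Metric.closedBall one2 (1 / 10)) (K * δ) H ∧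
    ∀ D : SL(2, ℝ), nm D ≤ 1 / 10 → VQ.rho U 0 (g * D) - 1 = G (mt D) ∧ -(VQ.kap U 0 (g * D)) / 2 = H (mt D)

/-- **Row PFL** (the fields are admissible; short-medium; from NMB, PSD, PFB). With `K` of PFB, constant `1000 K`: `D = 1` gives `|p - 1|, |q| ≤ Kδ`. `p1`: `nm D ≤ 1/25` PSD, otherwise `|p(gD) - p(g)| ≤ 2Kδ ≤ 50 K δ nm D`. `p2`: both `nm ≤ 1/25`: PSD; if `nm E > 1/25`: `≤ 2·50Kδ nm D ≤ 2500.. ` hence choose the constant `10^4 K` (generous);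
if `nm D > 1/25` (and `≤ 1/4`): `|p(gED) - p(gD)| + |p(gE) - p(g)|` with `gED = gD(D⁻¹ED)`, `nm(D⁻¹ED) ≤ 4 nm E`. -/
def PFL_stmt : Prop := ∃ K : ℝ, 1 ≤ K ∧ ∀ (Γ : Subgroup SL(2, ℝ)) (δ : ℝ) (B : ℕ → ℝ) (U : ℍ → ℝ), 0 ≤ δ → K * δ ≤ 1 / 2 → VQ.Pot Γ δ B U →
  Fld (K * δ) (VQ.rho U 0) (fun g => -(VQ.kap U 0 g) / 2)

/-- **Row PCF** (close potentials; short-medium; from NMB). `cdi 0 = I`, so `n = 0` gives `|U(g•I) - U'(g•I)| ≤ s` and `n = 1` `|n2 U g - n2 U' g| ≤ s`; `U, U' ∈ [1-δ, 1+δ]`, `|n2| ≤ δ` (`Pot.near`), `|E| ≤ s ≤ 1/100`: `√` is Lipschitz with constant `1` on `[1/4, ∞)`. -/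
def PCF_stmt : Prop := ∀ (Γ : Subgroup SL(2, ℝ)) (δ s E : ℝ) (B : ℕ → ℝ) (U U' : ℍ → ℝ), 0 ≤ δ → δ ≤ 1 / 100 → 0 ≤ s → s ≤ 1 / 100 → |E| ≤ s → VQ.Pot Γ δ B U → VQ.Pot Γ δ B U' →
  (∀ (g : SL(2, ℝ)) (n : ℕ), n ≤ 1 → ‖iteratedFDeriv ℝ n (fun w => VQ.Ug U g w - VQ.Ug U' g w) 0‖ ≤ s) →
  ∀ g, |VQ.rho U' E g - VQ.rho U 0 g| ≤ 5 * s ∧ |-(VQ.kap U' E g) / 2 - -(VQ.kap U 0 g) / 2| ≤ 5 * s

/-- **Row FFL** (the flow is a flow in the sense of SpecE; from the rows of block FL of helper80: additivity, equivariance, continuity, invariance of the measure, for `|E| ≤ δ`-small energies; the derivatives of the entries are `OKD.dfl` with `X = [[ρ/2, κ/2],[-κ/2, -ρ/2]]`). -/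
def FFL_stmt : Prop := ∀ Γ : Subgroup SL(2, ℝ), QU.SurfaceGroup Γ → ∃ δ0 : ℝ, 0 < δ0 ∧ ∀ (B : ℕ → ℝ) (D : VQ.Dyn), VQ.OKD Γ δ0 B D →
  FlG Γ (VQ.rho D.U 0) (fun g => -(VQ.kap D.U 0 g) / 2) (D.fl 0) ∧
  ∀ E : ℝ, |E| ≤ 1 / 100 → Flw (VQ.rho D.U E) (fun g => -(VQ.kap D.U E g) / 2) (D.fl E)

/-- **Row IUA** (the uniform weak law; short-medium; from MSR, UWM, CLO, HLI, PFL, PCF, FFL). `δ0` = minimum of FFL and `1/(10000 K)` (PFL; `Pot`, `OKD` are monotone in `δ`). `h' = h(· • I)`; `TF` with the Lipschitz constant `L ≥ 1`: HLI for `h/L`, so `Tf Γ (8L) h'` and `mnG F h' = mean F h`. MSR: `MSC`; UWM with `e/2`: `T0` (rounded up to a natural number);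
CLO at `T0` with `e/2`: `ε`; `s = E0 = min(ε/5, 1/100)` (PCF). -/
def IUA_stmt : Prop := VQ.IUW_stmt

end

end Pool.Agent.VQE
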