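import Pool.Agent.helper11.VQ.Spec3c

set_option autoImplicit false

open scoped MatrixGroups ContDiff Topology UpperHalfPlane ComplexConjugate ENNReal
open UpperHalfPlane MeasureTheory Filter Set

namespace Pool.Agent.VQ

open Pool.Agent.RS
open Pool.Agent.RPQ (CEig mean VV IsOp IsMul OProj wrd PJ nst mks MO Net Cl CkB PN upd Eqd)

theorem VHP_okd {Γ : Subgroup SL(2, ℝ)} {δ δ' : ℝ} {B : ℕ → ℝ} {D : Dyn} (h : δ ≤ δ') (hD : OKD Γ δ B D) :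
    OKD Γ δ' B D :=
  { hD with pot := ⟨hD.pot.smooth, hD.pot.inv, fun g v hv n hn => (hD.pot.near g v hv n hn).trans h, hD.pot.bd⟩ }

theorem VHP_adm {C C' : ℝ} {A : Prm} (hC : 0 ≤ C) (h : C ≤ C') (hA : Adm C' A) : Adm C A := by
  have h0 : 0 ≤ C' := hC.trans h
  have hz : 0 ≤ A.z := le_trans (mul_nonneg h0 hA.e3.le) hA.z
  have hz1 : 0 ≤ A.z1 := le_trans (mul_nonneg h0 hz) hA.z1
  have hz2 : 0 ≤ A.z2 := le_trans (mul_nonneg h0 hz1) hA.z2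
  refine ⟨hA.e3, hA.m, ?_, ?_, ?_, ?_, hA.tu⟩
  · exact (mul_le_mul_of_nonneg_right h hA.e3.le).trans hA.z
  · exact (mul_le_mul_of_nonneg_right h hz).trans hA.z1
  · exact (mul_le_mul_of_nonneg_right h hz1).trans hA.z2
  · exact (mul_le_mul_of_nonneg_right h (by positivity)).trans hA.up

theorem VHP_nst (b L n : ℕ) (hb : 1 ≤ b) (l : List ℕ) (hl : l ∈ AdZ b L n) : nst l ≤ b * n * L := by
  obtain ⟨c, hc, hx, rfl⟩ := hl
  subst hc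
  induction c with
  | nil => simp [nst]
  | cons x c ih =>
    have h1 : x < n := hx x (by simp)
    have h2 := ih (fun y hy => hx y (List.mem_cons_of_mem _ hy))
    have h3 : nst ((x :: c).map (fun x => b * x + (b - 1))) = (b * x + (b - 1) + 1) + nst (c.map (fun x => b * x + (b - 1))) := by
      simp [nst]
    have h4 : b * x + (b - 1) + 1 = b * (x + 1) := by
      rw [Nat.mul_succ]
      omega
    have h5 : b * (x + 1) ≤ b * n := Nat.mul_le_mul_left b h1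
    have h6 : b * n * (c.length + 1) = b * n * c.length + b * n := Nat.mul_succ _ _
    rw [h3, h4, List.length_cons, h6]
    omega

theorem VHP_unif (P : ℕ → ℝ → Prop) (hm : ∀ n a b, a ≤ b → P n a → P n b) (hex : ∀ n, 1 ≤ n → ∃ a, P n a) (N : ℕ) :
    ∃ a : ℝ, ∀ n, 1 ≤ n → n ≤ N → P n a := by
  induction N with
  | zero => exact ⟨0, fun n h1 h2 => by omega⟩
  | succ N ih =>
    obtain ⟨a, ha⟩ := ih
    obtain ⟨b, hb⟩ := hex (N + 1) (by omega)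
    refine ⟨max a b, fun n h1 h2 => ?_⟩
    rcases Nat.lt_or_ge N n with h3 | h3
    · have h4 : n = N + 1 := by omega
      subst h4
      exact hm _ _ _ (le_max_right _ _) hb
    · exact hm _ _ _ (le_max_left _ _) (ha n h1 h3)

theorem VHP_par (C' z0 : ℝ) (N : ℕ) (hC' : 1 ≤ C') (hz0 : 0 < z0) :
    ∃ A : Prm, Adm C' A ∧ A.m * A.e3 = 1 / (20 * C' ^ 4) ∧ A.z2 ≤ z0 ∧ N * (C' * A.z2) ≤ 1 / 4 ∧ A.z2 ≤ 1 / 8 ∧ 0 ≤ A.z2 := by
  have hC0 : (0 : ℝ) < C' := by linarith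
  have hz0' : 0 < 1 / z0 := by positivity
  obtain ⟨m, hm⟩ := exists_nat_ge (1 / z0 + 4 * N + 8)
  have hN0 : (0 : ℝ) ≤ N := Nat.cast_nonneg N
  have hm1 : (8 : ℝ) ≤ m := by linarith
  have hm0 : (0 : ℝ) < m := by linarith
  have hmn : 1 ≤ m := by
    rcases Nat.eq_zero_or_pos m with h | h
    · subst h
      norm_num at hm1
    · exact h
  have hmz : 1 / (m : ℝ) ≤ z0 := by
    have h1 : 1 / z0 ≤ m := by linarith
    rw [div_le_iff₀ hz0] at h1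
    rw [div_le_iff₀ hm0]
    linarith
  have hmN : 4 * (N : ℝ) ≤ m := by linarith
  set e3 : ℝ := 1 / (20 * C' ^ 4) / m with he3
  have he30 : 0 < e3 := by positivity
  have hk : C' * (C' * (C' * (C' * e3))) = 1 / (20 * m) := by
    rw [he3]
    field_simp
  have hz20 : 0 ≤ C' * (C' * (C' * e3)) := by positivity
  have hz2 : C' * (C' * (C' * e3)) ≤ 1 / (20 * m) := by
    rw [← hk]
    nlinarith
  have h20 : 1 / (20 * (m : ℝ)) ≤ 1 / m := by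
    apply one_div_le_one_div_of_le hm0
    linarith
  refine ⟨⟨e3, m, C' * e3, C' * (C' * e3), C' * (C' * (C' * e3))⟩, ⟨he30, hmn, le_rfl, le_rfl, le_rfl, ?_, ?_⟩, ?_, ?_, ?_, ?_, hz20⟩
  · show C' * (m * (C' * (C' * (C' * e3)))) ≤ 1
    have h1 : C' * (m * (C' * (C' * (C' * e3)))) = m * (C' * (C' * (C' * (C' * e3)))) := by ring
    rw [h1, hk]
    have h2 : (m : ℝ) * (1 / (20 * m)) = 1 / 20 := by
      field_simp
    rw [h2]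
    norm_num
  · show (m : ℝ) * e3 ≤ 1 / 20
    have h1 : (m : ℝ) * e3 = 1 / (20 * C' ^ 4) := by
      rw [he3]
      field_simp
    rw [h1]
    apply one_div_le_one_div_of_le (by norm_num)
    nlinarith [one_le_pow₀ hC' (n := 4)]
  · show (m : ℝ) * e3 = 1 / (20 * C' ^ 4)
    rw [he3]
    field_simp
  · exact hz2.trans (h20.trans hmz)
  · show (N : ℝ) * (C' * (C' * (C' * (C' * e3)))) ≤ 1 / 4
    rw [hk, mul_one_div, div_le_div_iff₀ (by positivity) (by norm_num)]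
    linarith
  · show C' * (C' * (C' * e3)) ≤ 1 / 8
    refine hz2.trans ?_
    rw [div_le_div_iff₀ (by positivity) (by norm_num)]
    linarith

theorem VHP_asy (m N : ℕ) (z2 : ℝ) (hN : 1 ≤ N) (hz2 : z2 ≤ 1 / 8) (R : ℝ) (h1 : (2 : ℝ) ^ 20 ≤ R) (h2 : (4 * N * ((m : ℝ) + 1)) ^ 8 ≤ R) :
    2 * R ^ (-(1 / 4) : ℝ) ≤ R ^ (-(1 / 5) : ℝ) ∧ ((m : ℝ) + 1) * R ^ (-(1 / 2) + z2) ≤ R ^ (-(1 / 4) : ℝ) / (4 * N) ∧ 2 ≤ Real.log R := by
  have hR0 : (0 : ℝ) < R := lt_of_lt_of_le (by norm_num) h1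
  have hR1 : (1 : ℝ) ≤ R := le_trans (by norm_num) h1
  have hN0 : (0 : ℝ) < N := by exact_mod_cast hN
  refine ⟨?_, ?_, ?_⟩
  · have h3 : R ^ (-(1 / 5) : ℝ) = R ^ (1 / 20 : ℝ) * R ^ (-(1 / 4) : ℝ) := by
      rw [← Real.rpow_add hR0]
      norm_num
    have h4 : (2 : ℝ) ≤ R ^ (1 / 20 : ℝ) := by
      calc (2 : ℝ) = ((2 : ℝ) ^ 20) ^ (1 / 20 : ℝ) := by
            rw [← Real.rpow_natCast, ← Real.rpow_mul (by norm_num)]
            norm_num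
        _ ≤ R ^ (1 / 20 : ℝ) := Real.rpow_le_rpow (by norm_num) h1 (by norm_num)
    rw [h3]
    exact mul_le_mul_of_nonneg_right h4 (Real.rpow_nonneg hR0.le _)
  · have h3 : R ^ (-(1 / 2) + z2) ≤ R ^ (-(1 / 4) : ℝ) * R ^ (-(1 / 8) : ℝ) := by
      rw [← Real.rpow_add hR0]
      exact Real.rpow_le_rpow_of_exponent_le hR1 (by linarith)
    have h4 : 4 * N * ((m : ℝ) + 1) ≤ R ^ (1 / 8 : ℝ) := by
      calc 4 * N * ((m : ℝ) + 1) = ((4 * N * ((m : ℝ) + 1)) ^ 8) ^ (1 / 8 : ℝ) := by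
            rw [← Real.rpow_natCast, ← Real.rpow_mul (by positivity)]
            norm_num
        _ ≤ R ^ (1 / 8 : ℝ) := Real.rpow_le_rpow (by positivity) h2 (by norm_num)
    have h5 : R ^ (1 / 8 : ℝ) * R ^ (-(1 / 8) : ℝ) = 1 := by
      rw [← Real.rpow_add hR0]
      norm_num
    rw [le_div_iff₀ (by positivity)]
    have h6 : 0 ≤ R ^ (-(1 / 8) : ℝ) := Real.rpow_nonneg hR0.le _
    have h7 : 0 ≤ R ^ (-(1 / 4) : ℝ) := Real.rpow_nonneg hR0.le _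
    calc ((m : ℝ) + 1) * R ^ (-(1 / 2) + z2) * (4 * N) = (4 * N * ((m : ℝ) + 1)) * R ^ (-(1 / 2) + z2) := by ring
      _ ≤ R ^ (1 / 8 : ℝ) * (R ^ (-(1 / 4) : ℝ) * R ^ (-(1 / 8) : ℝ)) :=
          mul_le_mul h4 h3 (Real.rpow_nonneg hR0.le _) (Real.rpow_nonneg hR0.le _)
      _ = (R ^ (1 / 8 : ℝ) * R ^ (-(1 / 8) : ℝ)) * R ^ (-(1 / 4) : ℝ) := by ring
      _ = R ^ (-(1 / 4) : ℝ) := by rw [h5, one_mul]
  · have h3 : Real.log ((2 : ℝ) ^ 20) ≤ Real.log R := Real.log_le_log (by norm_num) h1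
    rw [Real.log_pow] at h3
    have h4 := Real.log_two_gt_d9
    push_cast at h3
    linarith

theorem VHP_proof (hI4 : I4_stmt) (hI5 : I5_stmt) (hI6 : I6_stmt) (hI7 : I7_stmt) (hCNTV : CNTV_stmt) (hPARV : PARV_stmt) :
    VHP_stmt := by
  intro Γ F κ ch hΓ hF hch
  obtain ⟨δ4, C4, hδ4, hC4, P4⟩ := hI4 Γ ch hΓ hch
  obtain ⟨δ5, C5, hδ5, hC5, P5⟩ := hI5 Γ hΓ
  obtain ⟨δ6, C6, hδ6, hC6, P6⟩ := hI6 Γ hΓ
  obtain ⟨δ7, C7, hδ7, hC7, P7⟩ := hI7 Γ F ch hΓ hF hch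
  obtain ⟨δc, Cc, ρ10, hδc, hCc, hρ10, hρ11, Pc⟩ := hCNTV Γ κ hΓ
  obtain ⟨δ0, hδ0, h04, h05, h06, h07, h0c⟩ : ∃ δ0 : ℝ, 0 < δ0 ∧ δ0 ≤ δ4 ∧ δ0 ≤ δ5 ∧ δ0 ≤ δ6 ∧ δ0 ≤ δ7 ∧ δ0 ≤ δc := by
    refine ⟨min δ4 (min δ5 (min δ6 (min δ7 δc))), lt_min hδ4 (lt_min hδ5 (lt_min hδ6 (lt_min hδ7 hδc))), min_le_left _ _, ?_, ?_, ?_, ?_⟩
    · exact (min_le_right _ _).trans (min_le_left _ _)
    · exact (min_le_right _ _).trans ((min_le_right _ _).trans (min_le_left _ _))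
    · exact (min_le_right _ _).trans ((min_le_right _ _).trans ((min_le_right _ _).trans (min_le_left _ _)))
    · exact (min_le_right _ _).trans ((min_le_right _ _).trans ((min_le_right _ _).trans (min_le_right _ _)))
  refine ⟨δ0, hδ0, ?_⟩
  intro h e hh he
  obtain ⟨v0, C1, hv0, hC1, P7⟩ := P7 h e hh he
  refine ⟨v0, C1, hv0, hC1, ?_⟩
  intro C T0 E0 M0 B hC hT0 hE0 hM0
  obtain ⟨C', hC'1, hCC, hC4', hC5', hC6', hC7'⟩ : ∃ C' : ℝ, 1 ≤ C' ∧ C ≤ C' ∧ C4 ≤ C' ∧ C5 ≤ C' ∧ C6 ≤ C' ∧ C7 ≤ C' := by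
    refine ⟨C + C4 + C5 + C6 + C7, ?_, ?_, ?_, ?_, ?_, ?_⟩ <;> linarith
  have hC'0 : (0 : ℝ) < C' := by linarith
  have hC'4 : (1 : ℝ) ≤ C' ^ 4 := one_le_pow₀ hC'1
  obtain ⟨e2, he2⟩ : ∃ e2 : ℝ, e2 = 1 / (20 * C' ^ 4) := ⟨_, rfl⟩
  have he20 : 0 < e2 := by
    rw [he2]
    positivity
  have he21 : e2 ≤ 1 / 20 := by
    rw [he2]
    apply one_div_le_one_div_of_le (by norm_num)
    linarith
  obtain ⟨th, z0, hth, hz0, P7⟩ := P7 T0 E0 e2 hT0 hE0 he20 he21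
  -- number of big steps in a block
  obtain ⟨b, hb1, hb6, hb7⟩ : ∃ b : ℕ, 1 ≤ b ∧ 6 / 10 ≤ b * e2 ∧ b * e2 ≤ 7 / 10 := by
    refine ⟨⌈6 / 10 / e2⌉₊, ?_, ?_, ?_⟩
    · apply Nat.one_le_iff_ne_zero.mpr
      intro h0
      rw [Nat.ceil_eq_zero] at h0
      have : 0 < 6 / 10 / e2 := by positivity
      linarith
    · have h1 := Nat.le_ceil (6 / 10 / e2)
      rwa [div_le_iff₀ he20] at h1
    · have h1 := (Nat.ceil_lt_add_one (show 0 ≤ 6 / 10 / e2 by positivity)).le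
      have h2 := mul_le_mul_of_nonneg_right h1 he20.le
      rw [add_mul, div_mul_cancel₀ _ he20.ne'] at h2
      linarith
  obtain ⟨L, hL1, hL2⟩ : ∃ L : ℕ, 1 ≤ L ∧ M0 + 3 ≤ th * L := by
    refine ⟨⌈(M0 + 3) / th⌉₊ + 1, by omega, ?_⟩
    have h1 := Nat.le_ceil ((M0 + 3) / th)
    rw [div_le_iff₀ hth] at h1
    push_cast
    nlinarith
  obtain ⟨n, hn1, hn2⟩ : ∃ n : ℕ, 1 ≤ n ∧ (2 * (L : ℝ) + 1) / n ≤ e := by
    refine ⟨⌈(2 * (L : ℝ) + 1) / e⌉₊ + 1, by omega, ?_⟩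
    have h1 := Nat.le_ceil ((2 * (L : ℝ) + 1) / e)
    rw [div_le_iff₀ he] at h1
    rw [div_le_iff₀ (by positivity)]
    push_cast
    nlinarith
  obtain ⟨N, hN⟩ : ∃ N : ℕ, N = b * n * L := ⟨_, rfl⟩
  have hN1 : 1 ≤ N := by
    rw [hN]
    exact Nat.one_le_iff_ne_zero.mpr (by positivity)
  obtain ⟨A, hA, hAe, hAz0, hAN, hAz8, hAz⟩ := VHP_par C' z0 N hC'1 hz0
  rw [← he2] at hAe
  have hA4 : Adm C4 A := VHP_adm (by linarith) hC4' hA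
  have hA5 : Adm C5 A := VHP_adm (by linarith) hC5' hA
  have hA6 : Adm C6 A := VHP_adm (by linarith) hC6' hA
  have hA7 : Adm C7 A := VHP_adm (by linarith) hC7' hA
  obtain ⟨d, R4, hd, hR4, P4⟩ := P4 B A hA4
  obtain ⟨R5, P5⟩ := VHP_unif (fun N' R5 => ∀ (R : ℝ) (D : Dyn), R5 ≤ R → OKD Γ δ5 B D → ∀ p q : SL(2, ℝ) × ℝ,
      mZ (mW R) (N' - 1) {v | Ch D A R N' (vz p q v)} ≤ ENNReal.ofReal ((R ^ (-2 + C5 * A.z2)) ^ (N' - 1)))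
    (fun n a b hab H R D hR hD p q => H R D (hab.trans hR) hD p q)
    (fun n hn => by
      obtain ⟨R5, _, H⟩ := P5 B A n hA5 hn
      exact ⟨R5, H⟩) N
  obtain ⟨R6, hR6, P6⟩ := P6 B A hA6
  obtain ⟨R7, hR7, P7⟩ := P7 B A hA7 hAe hAz0
  obtain ⟨a, Rp, ha, hRp, Pp⟩ := hPARV N (10 * N + M0 + 10) Cc ρ10 e2 (by exact_mod_cast hN1) (by
    have : (0 : ℝ) ≤ N := Nat.cast_nonneg N
    linarith) hCc hρ10 he20
  obtain ⟨R0, h3, g4, g5, g6, g7, gp, g20, g8⟩ : ∃ R0 : ℝ, 3 ≤ R0 ∧ R4 ≤ R0 ∧ R5 ≤ R0 ∧ R6 ≤ R0 ∧ R7 ≤ R0 ∧ Rp ≤ R0 ∧ (2 : ℝ) ^ 20 ≤ R0 ∧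
      (4 * N * ((A.m : ℝ) + 1)) ^ 8 ≤ R0 := by
    have h1 : 0 ≤ (4 * (N : ℝ) * ((A.m : ℝ) + 1)) ^ 8 := by positivity
    have h2 := le_abs_self R5
    have h3 := abs_nonneg R5
    refine ⟨R4 + |R5| + R6 + R7 + Rp + 2 ^ 20 + (4 * (N : ℝ) * ((A.m : ℝ) + 1)) ^ 8, ?_, ?_, ?_, ?_, ?_, ?_, ?_, ?_⟩ <;> linarith
  refine ⟨th, b, L, n, N, A, a, R0, hth, hb1, hL1, hn1, hN1, hn2, hL2, VHP_adm (by linarith) hCC hA, ?_, ha, h3, ?_⟩
  · intro l hl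
    rw [hN]
    exact VHP_nst b L n hb1 l hl
  intro R ρ K C0 J p χ D hR hρ hρa hK hnet hD hU
  obtain ⟨q1, q2, q3⟩ := VHP_asy A.m N A.z2 hN1 hAz8 R (g20.trans hR) (g8.trans hR)
  have hRpos : (0 : ℝ) < R := by linarith
  have hR1 : (1 : ℝ) ≤ R := by linarith
  have hlog : 0 < Real.log R := by linarith
  have htu : A.tu R = e2 * Real.log R := by
    show (A.m : ℝ) * (A.e3 * Real.log R) = _
    rw [← mul_assoc, hAe]
  obtain ⟨k1, k2, k3, k4, k5⟩ := P4 R D (g4.trans hR) (VHP_okd h04 hD)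
  obtain ⟨nc, n1, n2, n3, n4, n5, n6⟩ := Pp R ρ (A.tu R) (gp.trans hR) hρ hρa (by rw [htu]) (by
    rw [htu]
    nlinarith)
  have hJP : ∀ (N' : ℕ) (w : ℕ → SL(2, ℝ) × ℝ), Ch D A R N' w → JP D (A.tu R) (R ^ (-(1 / 5) : ℝ)) N' w := by
    intro N' w hw j hj
    obtain ⟨j1, j2, j3, j4⟩ := P6 R D (g6.trans hR) (VHP_okd h06 hD) _ _ (hw j hj)
    have hW : ∀ x ∈ Wi 2 R, |x| ≤ R ^ (-(1 / 5) : ℝ) := by
      intro x hx
      rw [abs_le]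
      exact ⟨by linarith [hx.1], by linarith [hx.2]⟩
    exact ⟨j1, hW _ j2, hW _ j3⟩
  refine ⟨C' * A.z2, (1 + R ^ (-d)) * (R ^ 2 / (2 * Real.pi)), nc, ?_⟩
  have hRd0 : 0 ≤ R ^ (-d) := Real.rpow_nonneg hRpos.le _
  have hRd1 : R ^ (-d) ≤ 1 := Real.rpow_le_one_of_one_le_of_nonpos hR1 (by linarith)
  have hpi := Real.pi_gt_three
  refine ⟨k1, k2, ?_, k4, k5, ⟨?_, ?_⟩, ?_, ?_, ⟨by positivity, hAN⟩, ?_, ?_, n1⟩
  · intro x y hxy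
    refine (k3 x y hxy).trans ?_
    rw [htu]
    nlinarith
  · have h1 : 0 ≤ R ^ 2 / (2 * Real.pi) := by positivity
    nlinarith
  · have h1 : (1 + R ^ (-d)) * (R ^ 2 / (2 * Real.pi)) ≤ 2 * (R ^ 2 / (2 * Real.pi)) :=
      mul_le_mul_of_nonneg_right (by linarith) (by positivity)
    have h2 : 2 * (R ^ 2 / (2 * Real.pi)) = R ^ 2 / Real.pi := by
      field_simp
    rw [h2] at h1
    refine h1.trans ?_
    rw [div_le_iff₀ Real.pi_pos]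
    nlinarith [sq_nonneg R]
  · intro x y hxy
    obtain ⟨_, _, _, j4⟩ := P6 R D (g6.trans hR) (VHP_okd h06 hD) _ _ hxy
    exact j4.trans q2
  · intro N' h1 h2 x y
    refine (P5 N' h1 h2 R D (g5.trans hR) (VHP_okd h05 hD) x y).trans ?_
    apply ENNReal.ofReal_le_ofReal
    apply pow_le_pow_left₀ (Real.rpow_nonneg hRpos.le _)
    apply Real.rpow_le_rpow_of_exponent_le hR1
    have := mul_le_mul_of_nonneg_right hC5' hAz
    linarith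
  · intro x hx
    refine P7 R D b (g7.trans hR) (VHP_okd h07 hD) hU ?_ ?_ x hx
    · rw [htu, ← mul_assoc]
      exact mul_le_mul_of_nonneg_right hb6 hlog.le
    · rw [htu, ← mul_assoc]
      exact mul_le_mul_of_nonneg_right hb7 hlog.le
  · intro N' h1 h2 x y w hw0 hw
    obtain ⟨u1, u2⟩ := n6 N' h1 h2
    obtain ⟨v1, v2⟩ := Pc B C0 ρ ((Real.log R) ^ (-a)) (R ^ (-(1 / 5) : ℝ)) K (A.tu R) J p χ N' nc D x y w (VHP_okd h0c hD) h1 hρ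
      (Real.rpow_pos_of_pos hRpos _) n2 n3 n5 n4 hK u1 hnet hw0 (hJP N' w hw)
    have hsub : {γ : Γ | ∃ w' : ℕ → SL(2, ℝ) × ℝ, w' 0 = x ∧ w' N' = γ • y ∧ Ch D A R N' w' ∧ UndV D χ K (A.tu R) N' nc w w'} ⊆
        {γ : Γ | ∃ w' : ℕ → SL(2, ℝ) × ℝ, w' 0 = x ∧ w' N' = γ • y ∧ JP D (A.tu R) (R ^ (-(1 / 5) : ℝ)) N' w' ∧ UndV D χ K (A.tu R) N' nc w w'} := by
      rintro γ ⟨w', a1, a2, a3, a4⟩
      exact ⟨w', a1, a2, hJP N' w' a3, a4⟩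
    refine ⟨v1.subset hsub, ?_⟩
    refine le_trans ?_ (v2.trans u2)
    exact_mod_cast Set.ncard_le_ncard hsub v1

end Pool.Agent.VQ
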