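import Pool.Agent.helper62.RS.Defs

/-!
# MP_07c750 (QUE, weight 10), project VQ, block 5: the perturbed geodesic flow is ergodic, uniformly along unstable curves

Page: /team-store/VQ5_helper62.md. RULES. Row `vqe:XXX`: file `Pool/Agent/<seat>/VQE/XXX.lean`, `import Pool.Agent.helper62.VQ.SpecE`,
`set_option autoImplicit false`, namespace `Pool.Agent.VQE`, `open Pool.Agent.RS`, auxiliary lemmas prefixed `XXX_`, theorem `XXX_proof : XXX_stmt`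
(rows listed in `from` may be used as hypotheses `(h : YYY_stmt)`). All rows of QU, RS are proved (`import Pool.Agent.helper62.RS.All`:
`Pool.Agent.RS.A_GLC`, `A_GMG`, `A_GFD`, ...). No `convert`, `congr!`, `native_decide`, no double quotes, no `private`.

NOTATION. `p` = `rho`, `q` = `-kap/2` of VQ_defs: the flow is `g' = g X(g)`, `X = [[p/2, -q], [q, -p/2]]`. For two orbits `g1`, `g2` with `D = g1⁻¹ g2 =
[[a, b], [c, d]]` and speed `σ` of the second one, `P = p(g2) σ`, `Q = q(g2) σ`, `p = p(g1)`, `q = q(g1)`: `D' = D X(g2) σ - X(g1) D`, i.e.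
`a' = a(P-p)/2 + bQ + qc`, `b' = -aQ - b(P+p)/2 + qd`, `c' = c(P+p)/2 + dQ - qa`, `d' = -cQ - d(P-p)/2 - qb`.
If `a = d` and `σ = (a p - (b+c) q)/(a p(g2) + (b+c) q(g2))` then `(a-d)' = 0`: synchronised pairs, `b' = -b - hu`, `c' = c + hv`.
-/

open scoped MatrixGroups ContDiff Topology UpperHalfPlane
open UpperHalfPlane MeasureTheory Filter Set

namespace Pool.Agent.VQE

open Pool.Agent.RS

noncomputable section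

/-- the distance of `D` from `1` -/
def nm (D : SL(2, ℝ)) : ℝ := max (max |D.1 0 0 - 1| |D.1 0 1|) (max |D.1 1 0| |D.1 1 1 - 1|)

/-- admissible fields -/
structure Fld (δ : ℝ) (p q : SL(2, ℝ) → ℝ) : Prop where
  p0 : ∀ g, |p g - 1| ≤ δ
  q0 : ∀ g, |q g| ≤ δ
  p1 : ∀ g D, |p (g * D) - p g| ≤ δ * nm D
  q1 : ∀ g D, |q (g * D) - q g| ≤ δ * nm D
  p2 : ∀ g E D, nm D ≤ 1 / 4 → |p (g * E * D) - p (g * E) - p (g * D) + p g| ≤ δ * nm D * nm E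
  q2 : ∀ g E D, nm D ≤ 1 / 4 → |q (g * E * D) - q (g * E) - q (g * D) + q g| ≤ δ * nm D * nm E

/-- `f` is the flow of `g' = g X(g)` -/
structure Flw (p q : SL(2, ℝ) → ℝ) (f : ℝ → SL(2, ℝ) → SL(2, ℝ)) : Prop where
  zero : ∀ g, f 0 g = g
  add : ∀ s t g, f (s + t) g = f s (f t g)
  cont : Continuous (fun x : ℝ × SL(2, ℝ) => f x.1 x.2)
  d0 : ∀ (i : Fin 2) (t : ℝ) (g : SL(2, ℝ)), HasDerivAt (fun s => (f s g).1 i 0)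
    ((f t g).1 i 0 * (p (f t g) / 2) + (f t g).1 i 1 * q (f t g)) t
  d1 : ∀ (i : Fin 2) (t : ℝ) (g : SL(2, ℝ)), HasDerivAt (fun s => (f s g).1 i 1)
    (-((f t g).1 i 0 * q (f t g)) - (f t g).1 i 1 * (p (f t g) / 2)) t

/-- flows on `Γ \ G` which preserve the Haar measure -/
structure FlG (Γ : Subgroup SL(2, ℝ)) (p q : SL(2, ℝ) → ℝ) (f : ℝ → SL(2, ℝ) → SL(2, ℝ)) : Prop extends Flw p q f where
  inv : ∀ (γ : Γ) (t : ℝ) (g : SL(2, ℝ)), f t ((γ : SL(2, ℝ)) * g) = (γ : SL(2, ℝ)) * f t g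
  mp : ∀ t : ℝ, MeasurePreserving (f t) mG mG

/-- time averages -/
def avf (f : ℝ → SL(2, ℝ) → SL(2, ℝ)) (h : SL(2, ℝ) → ℝ) (T : ℝ) (g : SL(2, ℝ)) : ℝ := T⁻¹ * ∫ t in (0 : ℝ)..T, h (f t g)

/-- test functions: continuous (follows), `Γ`-invariant, bounded by `1`, Lipschitz with the constant `L` -/
structure Tf (Γ : Subgroup SL(2, ℝ)) (L : ℝ) (h : SL(2, ℝ) → ℝ) : Prop where
  cont : Continuous h
  inv : ∀ (γ : Γ) (g : SL(2, ℝ)), h ((γ : SL(2, ℝ)) * g) = h g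
  bd : ∀ g, |h g| ≤ 1
  lip : ∀ g D, |h (g * D) - h g| ≤ L * nm D

/-- the mean over `Γ \ G` -/
def mnG (F : Set ℍ) (h : SL(2, ℝ) → ℝ) : ℝ := (∫ g in dG F, h g ∂mG) / (mG (dG F)).toReal

/-- the time averages converge to the mean in `L²(Γ \ G)` -/
def MSC (F : Set ℍ) (f : ℝ → SL(2, ℝ) → SL(2, ℝ)) (h : SL(2, ℝ) → ℝ) : Prop :=
  Tendsto (fun n : ℕ => ∫ g in dG F, (avf f h n g - mnG F h) ^ 2 ∂mG) atTop (𝓝 0)

/-! ## Synchronised pairs -/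

/-- the matrix `[[a, b], [c, a]]`, `a = √(1 + bc)` -/
def dg (b c : ℝ) : SL(2, ℝ) := if h : 0 ≤ 1 + b * c then ⟨!![√(1 + b * c), b; c, √(1 + b * c)], by
    rw [Matrix.det_fin_two_of, Real.mul_self_sqrt h]; ring⟩ else 1

/-- the speed of the second orbit -/
def sg (p q : SL(2, ℝ) → ℝ) (g : SL(2, ℝ)) (b c : ℝ) : ℝ :=
  (√(1 + b * c) * p g - (b + c) * q g) / (√(1 + b * c) * p (g * dg b c) + (b + c) * q (g * dg b c))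

/-- `b' = -b - hu` -/
def hu (p q : SL(2, ℝ) → ℝ) (g : SL(2, ℝ)) (b c : ℝ) : ℝ := ((p (g * dg b c) * sg p q g b c + p g) / 2 - 1) * b +
  √(1 + b * c) * (q (g * dg b c) * sg p q g b c - q g)

/-- `c' = c + hv` -/
def hv (p q : SL(2, ℝ) → ℝ) (g : SL(2, ℝ)) (b c : ℝ) : ℝ := ((p (g * dg b c) * sg p q g b c + p g) / 2 - 1) * c +
  √(1 + b * c) * (q (g * dg b c) * sg p q g b c - q g)

/-- synchronised pairs `f t g`, `f t g * dg (x t) (y t)` in the stable cone -/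
structure SM (p q : SL(2, ℝ) → ℝ) (f : ℝ → SL(2, ℝ) → SL(2, ℝ)) (g : SL(2, ℝ)) (x y : ℝ → ℝ) : Prop where
  dx : ∀ t : ℝ, 0 ≤ t → HasDerivAt x (-(x t) - hu p q (f t g) (x t) (y t)) t
  dy : ∀ t : ℝ, 0 ≤ t → HasDerivAt y (y t + hv p q (f t g) (x t) (y t)) t
  sml : |x 0| ≤ 1 / 8
  cone : ∀ t : ℝ, 0 ≤ t → |y t| ≤ |x t| / 4
  dec : ∀ t : ℝ, 0 ≤ t → |x t| ≤ |x 0| * Real.exp (-(9 / 10 * t))

/-- the stable leaf of `g` is `g * dg b (st g b)` -/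
def st (p q : SL(2, ℝ) → ℝ) (f : ℝ → SL(2, ℝ) → SL(2, ℝ)) (g : SL(2, ℝ)) (b : ℝ) : ℝ :=
  Classical.epsilon (fun c : ℝ => ∃ x y : ℝ → ℝ, SM p q f g x y ∧ x 0 = b ∧ y 0 = c)

/-- the stable holonomy -/
def Sb (p q : SL(2, ℝ) → ℝ) (f : ℝ → SL(2, ℝ) → SL(2, ℝ)) (b : ℝ) (g : SL(2, ℝ)) : SL(2, ℝ) := g * dg b (st p q f g b)

/-- the flip -/
def kJ : SL(2, ℝ) := ⟨!![0, 1; -1, 0], by rw [Matrix.det_fin_two_of]; norm_num⟩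

/-- the reversed fields and flow -/
def rp (p : SL(2, ℝ) → ℝ) (g : SL(2, ℝ)) : ℝ := p (g * kJ⁻¹)

def rq (q : SL(2, ℝ) → ℝ) (g : SL(2, ℝ)) : ℝ := -q (g * kJ⁻¹)

def rf (f : ℝ → SL(2, ℝ) → SL(2, ℝ)) (t : ℝ) (g : SL(2, ℝ)) : SL(2, ℝ) := f (-t) (g * kJ⁻¹) * kJ

/-- the unstable holonomy: `g * [[a, β], [y, a]]` -/
def Ub (p q : SL(2, ℝ) → ℝ) (f : ℝ → SL(2, ℝ) → SL(2, ℝ)) (y : ℝ) (g : SL(2, ℝ)) : SL(2, ℝ) :=
  Sb (rp p) (rq q) (rf f) (-y) (g * kJ) * kJ⁻¹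

/-- the local coordinates `(t, y, x) ↦ S_x U_y f_t g` -/
def psi (p q : SL(2, ℝ) → ℝ) (f : ℝ → SL(2, ℝ) → SL(2, ℝ)) (g : SL(2, ℝ)) (z : Fin 3 → ℝ) : SL(2, ℝ) :=
  Sb p q f (z 2) (Ub p q f (z 1) (f (z 0) g))

/-- the matrix of `g` as a point of a metric space -/
def mt (g : SL(2, ℝ)) : Fin 2 → Fin 2 → ℝ := fun i j => g.1 i j

/-- the element of `Γ g` in `dG F` -/
def red (Γ : Subgroup SL(2, ℝ)) (F : Set ℍ) (g : SL(2, ℝ)) : SL(2, ℝ) :=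
  ((Classical.epsilon (fun γ : Γ => γ • (g • I) ∈ F) : Γ) : SL(2, ℝ)) * g

/-- curves in the unstable cone -/
structure UC (C1 κ : ℝ) (γ : ℝ → SL(2, ℝ)) : Prop where
  cont : ContinuousOn γ (Icc 0 1)
  lo : ∀ v v' : ℝ, 0 ≤ v → v < v' → v' ≤ 1 → (v' - v) / C1 ≤ ((γ v)⁻¹ * γ v').1 1 0
  hi : ∀ v v' : ℝ, 0 ≤ v → v < v' → v' ≤ 1 → ((γ v)⁻¹ * γ v').1 1 0 ≤ C1 * (v' - v)
  cone : ∀ v v' : ℝ, 0 ≤ v → v < v' → v' ≤ 1 → |((γ v)⁻¹ * γ v').1 0 1| +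
    |((γ v)⁻¹ * γ v').1 0 0 - ((γ v)⁻¹ * γ v').1 1 1| ≤ κ * ((γ v)⁻¹ * γ v').1 1 0

/-! ## A. The flow (finite differences) -/

/-- **Row NMB** (elementary; short). Entrywise estimates for products of `2 × 2` matrices: `DE - 1 = (D-1) + (E-1) + (D-1)(E-1)`; the inverse of
`[[a,b],[c,d]]` is `[[d,-b],[-c,a]]`; conjugation by `kJ` permutes the entries up to sign; the last: `g'⁻¹ g = 1 + g'⁻¹(g - g')`. -/
def NMB_stmt : Prop := (∀ D, 0 ≤ nm D) ∧ (∀ D, nm D = 0 ↔ D = 1) ∧ (∀ D, nm D⁻¹ = nm D) ∧ (∀ D, nm (kJ * D * kJ⁻¹) = nm D) ∧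
  (∀ D, nm (kJ⁻¹ * D * kJ) = nm D) ∧ (∀ D E, nm (D * E) ≤ nm D + nm E + 2 * nm D * nm E) ∧ Continuous nm ∧
  (∀ b c : ℝ, |b| ≤ 1 / 8 → |c| ≤ 1 / 8 → nm (dg b c) ≤ max |b| |c|) ∧
  ∀ (g g' : SL(2, ℝ)) (K : ℝ), (∀ i j, |g.1 i j| ≤ K) → (∀ i j, |g'.1 i j| ≤ K) →
    dist (mt g) (mt g') ≤ 2 * K * nm (g⁻¹ * g') ∧ nm (g⁻¹ * g') ≤ 2 * K * dist (mt g) (mt g')

/-- **Row GRO** (growth; medium; from NMB). `E(t) = (f t g)⁻¹ f t (gE) = [[a,b],[c,d]]` satisfies the equations of the header with `σ = 1` (derivatives of the entries: `(f t g)⁻¹`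
has the entries `d, -b, -c, a` of `f t g`). Let `N = (a-1)² + b² + c² + (d-1)²`, `n = nm E(t) ≤ √N ≤ 2n`. As long as `n ≤ 1`: `|p(gE) - p(g)|, |q(gE) - q(g)| ≤ δ n`, so `|a'|, |d'| ≤ 3δn`,
`|b' + b(P+p)/2| ≤ 3δn`, `|c' - c(P+p)/2| ≤ 3δn` (`b' + b(P+p)/2 = -(a-1)Q + q(d-1) - (Q-q)`), hence `|N'| ≤ 2(1+δ)N + 2·3δn·2√N ≤ 2(1 + 20δ)N`, `√N(t) ≤ √N(0) e^{(1+20δ)|t|}`.
If `2 nm E e^{(1+20δ)|t|} ≥ 1` nothing is to be proved; otherwise `N < 1` up to the time `t` (first exit). Negative `t`: the same inequality for `|N'|`. -/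
def GRO_stmt : Prop := ∀ (δ : ℝ) (p q : SL(2, ℝ) → ℝ) (f : ℝ → SL(2, ℝ) → SL(2, ℝ)), 0 ≤ δ → δ ≤ 1 / 100 → Fld δ p q → Flw p q f →
  ∀ (g E : SL(2, ℝ)) (t : ℝ), min 1 (nm ((f t g)⁻¹ * f t (g * E))) ≤ 2 * nm E * Real.exp ((1 + 20 * δ) * |t|)

/-- **Row SML** (short times; medium; from NMB). `M(t) = g⁻¹ f t g` (matrix) satisfies `M' = M X`, `M(0) = 1`, so `nm M(t) ≤ |t|` for `|t| ≤ 1/8` (as `|entries of MX| ≤ (1 + nm)(1/2 + 2δ)`, Gronwall or first exit), and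
`|M' - A0| ≤ |(M-1)X| + |X - A0| ≤ (1/2 + 2δ)·2·r + δ`, `A0 = diag(1/2,-1/2)`; integrate from `t'` to `t`. -/
def SML_stmt : Prop := ∀ (δ : ℝ) (p q : SL(2, ℝ) → ℝ) (f : ℝ → SL(2, ℝ) → SL(2, ℝ)), 0 ≤ δ → δ ≤ 1 / 100 → Fld δ p q → Flw p q f →
  ∀ (g : SL(2, ℝ)) (r t t' : ℝ), r ≤ 1 / 8 → |t| ≤ r → |t'| ≤ r → nm (g⁻¹ * f t g) ≤ |t| ∧
    |(g⁻¹ * f t g).1 0 0 - (g⁻¹ * f t' g).1 0 0 - (t - t') / 2| ≤ (2 * r + 2 * δ) * |t - t'| ∧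
    |(g⁻¹ * f t g).1 1 1 - (g⁻¹ * f t' g).1 1 1 + (t - t') / 2| ≤ (2 * r + 2 * δ) * |t - t'| ∧
    |(g⁻¹ * f t g).1 0 1 - (g⁻¹ * f t' g).1 0 1| ≤ (2 * r + 2 * δ) * |t - t'| ∧
    |(g⁻¹ * f t g).1 1 0 - (g⁻¹ * f t' g).1 1 0| ≤ (2 * r + 2 * δ) * |t - t'|

/-- **Row SME** (short times, differences; short-medium; from NMB, GRO). `E(t) = (f t g)⁻¹ f t (gE)`, the equations of GRO: every entry of `E'` is at most `2 nm E(t)` and `nm E(t) ≤ 2 nm(E) e^{2|t|} ≤ 3 nm E` (GRO), so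
the entries of `E(t) - E` are at most `6 |t| nm E`. -/
def SME_stmt : Prop := ∀ (δ : ℝ) (p q : SL(2, ℝ) → ℝ) (f : ℝ → SL(2, ℝ) → SL(2, ℝ)), 0 ≤ δ → δ ≤ 1 / 100 → Fld δ p q → Flw p q f →
  ∀ (g E : SL(2, ℝ)) (t : ℝ), |t| ≤ 1 / 8 → nm E ≤ 1 / 8 → ∀ i j : Fin 2, |((f t g)⁻¹ * f t (g * E)).1 i j - E.1 i j| ≤ 6 * |t| * nm E

/-! ## B. The synchronised system and the stable leaves -/

/-- **Row UVX** (algebra; medium; from NMB). `|b|, |c| ≤ 1/8`: `a = √(1+bc) ∈ [0.99, 1.01]`, `|a - a'| ≤ (|b-b'| + |c-c'|)/8`, `nm (D⁻¹ D') ≤ 2(|b-b'| + |c-c'|)` for `D = dg b c`, `D' = dg b' c'`, so `p(gD)`, `q(gD)` are Lipschitz in `(b,c)` with the constant `2δ` (`Fld.p1` at `gD`).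
`sg - 1 = -(a(p2 - p1) + (b+c)(q1 + q2))/(a p2 + (b+c) q2)`, denominator `≥ 0.9`. All terms of `hu`, `hv` contain a factor of size `δ`: the Lipschitz constants are `≤ 50δ` (generous). `hu = hv = 0` at `b = c = 0`. Continuity in `g`: `p`, `q` are continuous by `Fld.p1`, `Fld.q1`. -/
def UVX_stmt : Prop := ∀ (δ : ℝ) (p q : SL(2, ℝ) → ℝ), 0 ≤ δ → δ ≤ 1 / 100 → Fld δ p q →
  Continuous p ∧ Continuous q ∧ ∀ b c b' c' : ℝ, |b| ≤ 1 / 8 → |c| ≤ 1 / 8 → |b'| ≤ 1 / 8 → |c'| ≤ 1 / 8 →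
    (∀ g, |hu p q g b c - hu p q g b' c'| ≤ 50 * δ * (|b - b'| + |c - c'|)) ∧
    (∀ g, |hv p q g b c - hv p q g b' c'| ≤ 50 * δ * (|b - b'| + |c - c'|)) ∧
    (∀ g, |sg p q g b c - 1| ≤ 10 * δ * (|b| + |c|)) ∧ (∀ g, hu p q g 0 0 = 0 ∧ hv p q g 0 0 = 0) ∧
    Continuous (fun g => hu p q g b c) ∧ Continuous (fun g => hv p q g b c) ∧ Continuous (fun g => sg p q g b c)

/-- **Row UVG** (algebra; medium; from NMB, UVX). Compare at `gE` and `g`, `D = dg b c`, `nm D ≤ |b| + |c|`. `p1`, `q1` change by `≤ δ nm E`; `p2 - p1`, `q2 - q1` change by `≤ δ nm D nm E` (`Fld.p2`, `Fld.q2`), so `p2`, `q2` by `≤ 1.2 δ nm E`; `sg` changes by `≤ 6 δ (|b|+|c|) nm E`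
(numerator of `sg - 1` as in UVX); `hu = ((p2 sg + p1)/2 - 1) b + a((q2 - q1) + q2(sg - 1))` changes by `≤ 50 δ nm E (|b| + |c|)` (generous). If `nm E > 1` use UVX: `|hu| ≤ 50δ(|b|+|c|)` at both points. -/
def UVG_stmt : Prop := ∀ (δ : ℝ) (p q : SL(2, ℝ) → ℝ), 0 ≤ δ → δ ≤ 1 / 100 → Fld δ p q →
  ∀ (b c : ℝ) (g E : SL(2, ℝ)), |b| ≤ 1 / 8 → |c| ≤ 1 / 8 →
    |hu p q (g * E) b c - hu p q g b c| ≤ 100 * δ * min 1 (nm E) * (|b| + |c|) ∧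
    |hv p q (g * E) b c - hv p q g b c| ≤ 100 * δ * min 1 (nm E) * (|b| + |c|)

/-- **Row LYA** (PURE, calculus; short). `V = χ² - β²/16 - 8F²`, `F = F0 e^{λt}`: `V' ≥ 2χ² + β²/8 - 2|χ|(η(|β|+|χ|) + F) - (|β|/8)(η(|β|+|χ|) + F) - 16λF²`. With `2|χ|F ≤ χ²/2 + 2F²`, `(|β|/8)F ≤ β²/32 + F²/8·…` (`≤ β²/32 + 2F²`), `4λ·4 ≤ 4` and `η ≤ 1/200`, `|β||χ| ≤ 2χ² + β²/8`:
`V' - V ≥ 0`. So `e^{-t}V` is monotone (`monotoneOn_of_deriv_nonneg` on `[0,T]`). -/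
def LYA_stmt : Prop := ∀ (η F0 lam T : ℝ) (β χ β' χ' : ℝ → ℝ), 0 ≤ η → η ≤ 1 / 200 → 0 ≤ F0 → 0 ≤ lam → lam ≤ 1 / 4 → 0 ≤ T →
  (∀ t ∈ Icc 0 T, HasDerivAt β (β' t) t ∧ HasDerivAt χ (χ' t) t ∧
    |β' t + β t| ≤ η * (|β t| + |χ t|) + F0 * Real.exp (lam * t) ∧ |χ' t - χ t| ≤ η * (|β t| + |χ t|) + F0 * Real.exp (lam * t)) →
  Real.exp T * ((χ 0) ^ 2 - (β 0) ^ 2 / 16 - 8 * F0 ^ 2) ≤ (χ T) ^ 2 - (β T) ^ 2 / 16 - 8 * (F0 * Real.exp (lam * T)) ^ 2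

/-- **Row DEC** (PURE, calculus; short). `(β²)' = 2ββ' ≤ -2β² + 2η|β|(|β| + |χ|) ≤ -2β²(1 - 5η/4) ≤ -(9/5)β²`, so `e^{(9/5)t} β²` is antitone on `[0,T]`. -/
def DEC_stmt : Prop := ∀ (η T : ℝ) (β χ β' : ℝ → ℝ), 0 ≤ η → η ≤ 1 / 200 → 0 ≤ T →
  (∀ t ∈ Icc 0 T, HasDerivAt β (β' t) t ∧ |χ t| ≤ |β t| / 4 ∧ |β' t + β t| ≤ η * (|β t| + |χ t|)) →
  |β T| ≤ |β 0| * Real.exp (-(9 / 10 * T))

/-- **Row GLO** (PURE, global solutions of Lipschitz equations; medium). Picard-Lindeloef on intervals of the fixed length `1/(4(L+1))` (on the ball of radius `ρ = ‖x‖ + sup‖F t 0‖ + 1` around the initial value `x` the field is bounded by `L(‖x‖+ρ) + sup‖F t 0‖`, so the solution exists for the time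
`1/(4(L+1))`), gluing; or a fixed point of an iterate of `x ↦ x0 + ∫_0^t F s (x s) ds` on `C([-n,n])` and uniqueness. Last part: Gronwall (`dist_le_of_trajectories_ODE`). -/
def GLO_stmt : Prop := ∀ (F : ℝ → ℝ × ℝ → ℝ × ℝ) (L : ℝ), (∀ x, Continuous (fun t => F t x)) → (∀ t x y, ‖F t x - F t y‖ ≤ L * ‖x - y‖) →
  ∃ Φ : ℝ → ℝ × ℝ → ℝ × ℝ, (∀ x, Φ 0 x = x) ∧ (∀ x t, HasDerivAt (fun s => Φ s x) (F t (Φ t x)) t) ∧ ∀ t, Continuous (Φ t)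

/-- **Row SHO** (stable leaf, existence; medium; from UVX, LYA, DEC, GLO). Clamped system `b' = -b - hu(f t g, cl b, cl c)`, `c' = c + hv(f t g, cl b, cl c)`, `cl` = projection to `[-1/8,1/8]`, is Lipschitz (UVX), jointly continuous; `Φ` from GLO. `|hu|,|hv| ≤ 50δ(|b|+|c|)`, so LYA (with `F0 = 0`) for every solution:
`e^{-t}(c² - b²/16)` is nondecreasing. Fix `b ≠ 0`. `C_n = {c ∈ [-|b|/4, |b|/4] : V(n) ≤ 0}`, `V = c(n)² - b(n)²/16` of the solution from `(b, c)`: compact, decreasing in `n`. Nonempty: for `c = ±|b|/4` `V ≥ 0` for `t ≥ 0` and `c(t) ≠ 0` (a solution that vanishes once is `0`: uniqueness), so `c(n)` has the sign of `c`;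
by the intermediate value theorem `c(n) = 0` for some `c`. A point of the intersection has `V(t) ≤ 0` for all `t ≥ 0` (`V(t) > 0` would persist), so `|c(t)| ≤ |b(t)|/4`, DEC gives the decay, and the clamps are inactive. `b = 0`: `x = y = 0`. -/
def SHO_stmt : Prop := ∀ (δ : ℝ) (p q : SL(2, ℝ) → ℝ) (f : ℝ → SL(2, ℝ) → SL(2, ℝ)), 0 ≤ δ → δ ≤ 1 / 10000 → Fld δ p q → Flw p q f →
  ∀ (g : SL(2, ℝ)) (b : ℝ), |b| ≤ 1 / 8 → ∃ x y : ℝ → ℝ, SM p q f g x y ∧ x 0 = b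

/-- **Row SLP** (stable leaf, Lipschitz; medium; from UVX, UVG, GRO, LYA). `β = x - x'`, `χ = y - y'`. `hu(f t g, x, y) - hu(f t (gE), x', y')` is at most `50δ(|β|+|χ|)` (UVX at `f t (gE)`) plus `100 δ min(1, nm E(t)) (|x|+|y|)` (UVG), `E(t) = (f t g)⁻¹ f t (gE)`; `min(1, nm E(t)) ≤ 2 nm E e^{(1+20δ)t}` (GRO) and
`|x| + |y| ≤ (5/4)|x 0| e^{-9t/10}`: `F0 = 250 δ |x 0| nm E`, `λ = 1/10 + 20δ ≤ 1/4`. LYA for all `T`: the right side is `≤ (χ T)² ≤ (1/16)(1/4)²`, bounded, so the left bracket is `≤ 0`: `(χ 0)² ≤ (β 0)²/16 + 8F0²`. -/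
def SLP_stmt : Prop := ∀ (δ : ℝ) (p q : SL(2, ℝ) → ℝ) (f : ℝ → SL(2, ℝ) → SL(2, ℝ)), 0 ≤ δ → δ ≤ 1 / 10000 → Fld δ p q → Flw p q f →
  ∀ (g E : SL(2, ℝ)) (x y x' y' : ℝ → ℝ), SM p q f g x y → SM p q f (g * E) x' y' →
    |y 0 - y' 0| ≤ |x 0 - x' 0| / 4 + 750 * δ * |x 0| * nm E

/-- **Row STP** (the function `st`; short; from NMB, SHO, SLP). `Classical.epsilon_spec` and SHO; `|st| ≤ |b|/4` is `SM.cone` at `0`; the estimate is SLP; continuity of `(g, b) ↦ st g b` on `|b| ≤ 1/8` follows (`g' = g (g⁻¹ g')`, `nm (g⁻¹ g') → 0`). -/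
def STP_stmt : Prop := ∀ (δ : ℝ) (p q : SL(2, ℝ) → ℝ) (f : ℝ → SL(2, ℝ) → SL(2, ℝ)), 0 ≤ δ → δ ≤ 1 / 10000 → Fld δ p q → Flw p q f →
  (∀ (g : SL(2, ℝ)) (b : ℝ), |b| ≤ 1 / 8 → |st p q f g b| ≤ |b| / 4 ∧ ∃ x y : ℝ → ℝ, SM p q f g x y ∧ x 0 = b ∧ y 0 = st p q f g b) ∧
  (∀ (g E : SL(2, ℝ)) (b b' : ℝ), |b| ≤ 1 / 8 → |b'| ≤ 1 / 8 →
    |st p q f g b - st p q f (g * E) b'| ≤ |b - b'| / 4 + 750 * δ * |b| * nm E) ∧
  ContinuousOn (fun x : SL(2, ℝ) × ℝ => Sb p q f x.2 x.1) (univ ×ˢ Icc (-(1 / 8)) (1 / 8))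

/-- **Row SYN** (synchronised pairs are orbits; medium; from NMB, UVX). `τ(t) = ∫_0^t σ(s) ds`, `σ(s) = sg (f s g) (x s) (y s)` (continuous). `G2(t) = f t g * dg (x t) (y t)` satisfies `G2' = G2 X(G2) σ` (the header: `a = √(1+xy)`, `a' = (x'y + xy')/(2a)`; the four equations with `d = a`), and so does
`G3(t) = f (τ t) (G2 0)`. `E = G2⁻¹ G3`: `E' = σ(E X(G3) - X(G2) E)`, `E(0) = 1`, `|X(G3) - X(G2)| ≤ δ nm E`: Gronwall for `N = (a-1)² + b² + c² + (d-1)²` as long as `N ≤ 1` gives `N = 0`. -/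
def SYN_stmt : Prop := ∀ (δ : ℝ) (p q : SL(2, ℝ) → ℝ) (f : ℝ → SL(2, ℝ) → SL(2, ℝ)), 0 ≤ δ → δ ≤ 1 / 10000 → Fld δ p q → Flw p q f →
  ∀ (g : SL(2, ℝ)) (x y : ℝ → ℝ), SM p q f g x y → ∀ t : ℝ, 0 ≤ t →
    f (∫ s in (0 : ℝ)..t, sg p q (f s g) (x s) (y s)) (g * dg (x 0) (y 0)) = f t g * dg (x t) (y t)

/-- **Row AVE** (averages; short-medium; from NMB, UVX, SYN). `g2 = g dg(x 0)(y 0)`, `τ` as in SYN. `∫_0^{τ(T)} h(f s g2) ds = ∫_0^T h(f t g dg(x t)(y t)) σ(t) dt`, and `|h(f t g dg) - h(f t g)| ≤ L nm(dg(x t)(y t)) ≤ L|x t|`, `|σ - 1| ≤ 10δ(|x t| + |y t|)`, `|x t| ≤ e^{-9t/10}/8`: the difference to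
`∫_0^T h(f t g) dt` is `≤ (L+1)/7`; `|τ(T) - T| ≤ 1/7`, `|h| ≤ 1`. -/
def AVE_stmt : Prop := ∀ (Γ : Subgroup SL(2, ℝ)) (δ L : ℝ) (p q : SL(2, ℝ) → ℝ) (f : ℝ → SL(2, ℝ) → SL(2, ℝ)) (h : SL(2, ℝ) → ℝ),
  0 ≤ δ → δ ≤ 1 / 10000 → 0 ≤ L → Fld δ p q → Flw p q f → Tf Γ L h → ∀ (g : SL(2, ℝ)) (x y : ℝ → ℝ), SM p q f g x y → ∀ T : ℝ, 0 < T →
    |avf f h T (g * dg (x 0) (y 0)) - avf f h T g| ≤ (L + 1) / T

/-- **Row REV** (reversal; short-medium; from NMB). `kJ D kJ⁻¹ = [[d,-c],[-b,a]]` has the same `nm`, `g D kJ⁻¹ = g kJ⁻¹ (kJ D kJ⁻¹)`. `J⁻¹ X J = [[-p/2,-q],[q,p/2]]`, so `(f(-t)(g J⁻¹) J)' = (..)·[[p/2, q],[-q,-p/2]]` with `p, q` at `f(-t)(gJ⁻¹)`. Right translations preserve `mG` (`RS.A_GRI`). -/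
def REV_stmt : Prop := (∀ (δ : ℝ) (p q : SL(2, ℝ) → ℝ), Fld δ p q → Fld δ (rp p) (rq q)) ∧
  (∀ (p q : SL(2, ℝ) → ℝ) (f : ℝ → SL(2, ℝ) → SL(2, ℝ)), Flw p q f → Flw (rp p) (rq q) (rf f)) ∧
  ∀ (Γ : Subgroup SL(2, ℝ)) (p q : SL(2, ℝ) → ℝ) (f : ℝ → SL(2, ℝ) → SL(2, ℝ)), FlG Γ p q f → FlG Γ (rp p) (rq q) (rf f)

/-! ## C. Null sets and the Hausdorff measure of the matrices -/

/-- **Row HAL** (Haar measure `≤` Hausdorff measure; medium; RS.A_GMG, QU.INV). `K ⊆ {toSL2R z * kM θ : |x| ≤ X, 1/Y ≤ y ≤ Y}`. By GMG (fourth part, indicator of `A`) and `volume` on `ℍ` `= dx dy/y²`: `mG A ≤ Y² vol E`, `E = {(x,y,θ) : |x| ≤ X, 1/Y ≤ y ≤ Y, 0 < θ ≤ 2π, toSL2R(x+iy) kM θ ∈ A}` in `Fin 3 → ℝ`, where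
`volume = μH[3]` (`hausdorffMeasure_pi_real`). Cut `(0,2π]` into `7` intervals of length `≤ 1`: on each the map `ι(x,y,θ) = mt(toSL2R(x+iy) kM θ)` is antilipschitz: with the entries `(A',B';C',D')` `y = 1/(C'²+D'²)`, `x = y(A'C'+B'D')`, `sin(θ-θ') = √(yy')(C'D'' - D'C'')`, all Lipschitz on bounded sets with `C'²+D'² ≥ 1/Y`
(`AntilipschitzWith.hausdorffMeasure_preimage_le` on subtypes, or `μH[3]` of the image under the Lipschitz inverse). -/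
def HAL_stmt : Prop := ∀ K : Set SL(2, ℝ), IsCompact K → ∃ C : NNReal, ∀ A : Set SL(2, ℝ), MeasurableSet A → A ⊆ K →
  mG A ≤ C * Measure.hausdorffMeasure 3 (mt '' A)

/-- **Row HAG** (Hausdorff measure `≤` Haar measure; medium; RS.A_GMG, QU.INV). The same coordinates: `mt '' A ⊆ ι(E)` (every `g` is `toSL2R (g•I) * kM θ`, `0 < θ ≤ 2π`), `ι` is Lipschitz on the box (`LipschitzOnWith.hausdorffMeasure_image_le`), `vol E ≤ Y²·2π·mG A`. -/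
def HAG_stmt : Prop := ∀ K : Set SL(2, ℝ), IsCompact K → ∃ C : NNReal, ∀ A : Set SL(2, ℝ), MeasurableSet A → A ⊆ K →
  Measure.hausdorffMeasure 3 (mt '' A) ≤ C * mG A

/-- **Row NUL** (preimages of null sets; medium; from NMB, HAL, HAG). Cover `SL(2,ℝ)` by countably many compact sets `B` of `nm`-diameter `≤ r` (`nm (g⁻¹g') ≤ r` for `g, g' ∈ B`); `S(B)` is compact. On `B` `dist(mt g)(mt g') ≤ C dist(mt(S g))(mt(S g'))` (NMB), so `mt '' (S⁻¹N ∩ B)` is the image of a subset of `mt '' (N ∩ S B)` under a Lipschitz map: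
`μH[3] = 0` (HAG for `N ∩ S B`), then `mG (S⁻¹N ∩ B) = 0` (HAL). -/
def NUL_stmt : Prop := ∀ (S : SL(2, ℝ) → SL(2, ℝ)) (r κ : ℝ), 0 < r → 0 < κ → Continuous S →
  (∀ g E, nm E ≤ r → κ * nm E ≤ nm ((S g)⁻¹ * S (g * E))) → ∀ N : Set SL(2, ℝ), mG N = 0 → mG (S ⁻¹' N) = 0

/-- **Row NUI** (images of null sets; short-medium; from NMB, HAL). `Ψ` maps the cube into a bounded set; `z ↦ mt (Ψ z)` is Lipschitz on it (NMB), `μH[3] = volume` on `Fin 3 → ℝ`, so `μH[3] (mt '' (Ψ '' Z)) = 0`; take a measurable (Gδ) superset of measure zero or argue with a measurable null superset of `Z` and the compact cube. -/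
def NUI_stmt : Prop := ∀ (Ψ : (Fin 3 → ℝ) → SL(2, ℝ)) (r C : ℝ), 0 < r → ContinuousOn Ψ (Icc (fun _ => -r) (fun _ => r)) →
  (∀ z ∈ Icc (fun _ : Fin 3 => -r) (fun _ => r), ∀ z' ∈ Icc (fun _ : Fin 3 => -r) (fun _ => r), nm ((Ψ z)⁻¹ * Ψ z') ≤ C * dist z z') →
  ∀ Z : Set (Fin 3 → ℝ), volume Z = 0 → mG (Ψ '' (Z ∩ Icc (fun _ => -r) (fun _ => r))) = 0

/-- **Row NUA** (lower bound for images; short-medium; from NMB, HAG). `dist z z' ≤ κ⁻¹ nm (..) ≤ C dist(mt (Θ z))(mt (Θ z'))` on `K`, so `volume Z = μH[3] Z ≤ C' μH[3](mt '' (Θ '' Z)) ≤ C' μH[3](mt '' A) ≤ C'' mG A`. -/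
def NUA_stmt : Prop := ∀ (K : Set SL(2, ℝ)) (κ : ℝ), IsCompact K → 0 < κ → ∃ C : NNReal, ∀ (Θ : (Fin 3 → ℝ) → SL(2, ℝ)) (Z : Set (Fin 3 → ℝ)) (A : Set SL(2, ℝ)),
  MeasurableSet A → A ⊆ K → (∀ z ∈ Z, Θ z ∈ A) → (∀ z ∈ Z, ∀ z' ∈ Z, κ * dist z z' ≤ nm ((Θ z)⁻¹ * Θ z')) → volume Z ≤ C * mG A

/-- **Row FDK** (invariant sets; short; RS.A_GFD, RS.A_GLI). `K` meets only finitely many `γ • dG F` (both relatively compact, `Γ` discrete) and they cover it; `mG (A ∩ γ dG F) = mG (A ∩ dG F)`. -/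
def FDK_stmt : Prop := ∀ (Γ : Subgroup SL(2, ℝ)) (F : Set ℍ) (K : Set SL(2, ℝ)), QU.SurfaceGroup Γ → QU.NiceDom Γ F → IsCompact K →
  ∃ m : ℕ, ∀ A : Set SL(2, ℝ), MeasurableSet A → (∀ (γ : Γ) (g : SL(2, ℝ)), (γ : SL(2, ℝ)) * g ∈ A ↔ g ∈ A) → mG (A ∩ K) ≤ m * mG (A ∩ dG F)

/-- **Row ALP** (the holonomies are antilipschitz; short-medium; from NMB, STP, REV). `R = (S_b g)⁻¹ S_b(gE) = C⁻¹ E C'`, `C = dg b (st g b)`, `C' = dg b (st (gE) b)`: `R - 1 = C⁻¹(E-1)C' + C⁻¹(C' - C)`, entries of `C - 1`, `C' - 1` are `≤ 1/100`, `|C' - C| ≤ 2·750δ|b| nm E ≤ nm E/500`. Upper bound the same way.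
`U_y`: the same for the reversed flow and conjugation by `kJ` (NMB). Continuity: STP, REV. -/
def ALP_stmt : Prop := ∀ (δ : ℝ) (p q : SL(2, ℝ) → ℝ) (f : ℝ → SL(2, ℝ) → SL(2, ℝ)), 0 ≤ δ → δ ≤ 1 / 10000 → Fld δ p q → Flw p q f →
  ∀ b : ℝ, |b| ≤ 1 / 100 → Continuous (Sb p q f b) ∧ Continuous (Ub p q f b) ∧ ∀ g E : SL(2, ℝ), nm E ≤ 1 / 8 →
    nm E / 2 ≤ nm ((Sb p q f b g)⁻¹ * Sb p q f b (g * E)) ∧ nm ((Sb p q f b g)⁻¹ * Sb p q f b (g * E)) ≤ 2 * nm E ∧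
    nm E / 2 ≤ nm ((Ub p q f b g)⁻¹ * Ub p q f b (g * E)) ∧ nm ((Ub p q f b g)⁻¹ * Ub p q f b (g * E)) ≤ 2 * nm E

/-! ## D. Ergodicity (Hopf) -/

/-- **Row VNA** (PURE, mean ergodic theorem, both directions; medium). Koopman operator `U` of `T` on `L²(μ)` (`Lp.compMeasurePreservingₗᵢ`), `U⁻¹` = Koopman operator of `S`. `ContinuousLinearMap.tendsto_birkhoffAverage_orthogonalProjection`: the Birkhoff averages of `H` converge to the projections onto `ker(U - 1)` and `ker(U⁻¹ - 1)`, which are equal; call it `u`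
(measurable representative). `L²` convergence gives convergence in measure, hence a.e. convergence along a subsequence (`TendstoInMeasure.exists_seq_tendsto_ae`), twice. -/
def VNA_stmt : Prop := ∀ (Ω : Type) [MeasurableSpace Ω] (μ : Measure Ω) [IsFiniteMeasure μ] (T S : Ω → Ω) (H : Ω → ℝ), MeasurePreserving T μ μ →
  MeasurePreserving S μ μ → (∀ᵐ w ∂μ, S (T w) = w) → (∀ᵐ w ∂μ, T (S w) = w) → Measurable H → (∀ w, |H w| ≤ 1) →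
  ∃ (u : Ω → ℝ) (ns : ℕ → ℕ), Measurable u ∧ StrictMono ns ∧
    (∀ᵐ w ∂μ, Tendsto (fun k => (ns k : ℝ)⁻¹ * ∑ j ∈ Finset.range (ns k), H (T^[j] w)) atTop (𝓝 (u w))) ∧
    (∀ᵐ w ∂μ, Tendsto (fun k => (ns k : ℝ)⁻¹ * ∑ j ∈ Finset.range (ns k), H (S^[j] w)) atTop (𝓝 (u w))) ∧
    Tendsto (fun n : ℕ => ∫ w, ((n : ℝ)⁻¹ * ∑ j ∈ Finset.range n, H (T^[j] w) - u w) ^ 2 ∂μ) atTop (𝓝 0)

/-- **Row RDM** (reduction to the fundamental domain; medium; RS.A_GFD, RS.A_GLI). `NiceDom.uniq` at `g • I`: `red g ∈ dG F`, `red (γ g) = red g`, `red g = g` on `dG F`, `red` is measurable (countably many pieces `{g : γ • (g • I) ∈ F}`). `φ(dG F)` is another fundamental domain of `Γ` for `mG` (`φ` commutes with `Γ`), so for measurable `A`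
`mG (dG F ∩ φ⁻¹(red⁻¹ A)) = mG (φ(dG F) ∩ red⁻¹ A) = mG (dG F ∩ red⁻¹ A) = mG (dG F ∩ A)` (`IsFundamentalDomain.measure_set_eq` or the sum over `Γ`, countable). -/
def RDM_stmt : Prop := ∀ (Γ : Subgroup SL(2, ℝ)) (F : Set ℍ), QU.SurfaceGroup Γ → QU.NiceDom Γ F →
  (∀ g, red Γ F g ∈ dG F) ∧ (∀ (γ : Γ) g, red Γ F ((γ : SL(2, ℝ)) * g) = red Γ F g) ∧ (∀ g ∈ dG F, red Γ F g = g) ∧
  (∀ g, ∃ γ : Γ, red Γ F g = (γ : SL(2, ℝ)) * g) ∧ Measurable (red Γ F) ∧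
  ∀ φ ψ : SL(2, ℝ) → SL(2, ℝ), Measurable φ → Measurable ψ → (∀ g, ψ (φ g) = g) → (∀ g, φ (ψ g) = g) →
    (∀ (γ : Γ) g, φ ((γ : SL(2, ℝ)) * g) = (γ : SL(2, ℝ)) * φ g) → MeasurePreserving φ mG mG →
    MeasurePreserving (fun g => red Γ F (φ g)) (mG.restrict (dG F)) (mG.restrict (dG F))

/-- **Row VNE** (medium; from VNA, RDM). `T = red ∘ f 1`, `S = red ∘ f (-1)` on `mG.restrict (dG F)`, `H(g) = ∫_0^1 h(f s g) ds` (`Γ`-invariant): `H(T^j g) = ∫_j^{j+1} h(f s g) ds` (`T^j g ∈ Γ f_j g`), so the Birkhoff averages are `avf f h n g`; for `S`: `H(S^j g) = ∫_{-j}^{1-j}`, which differs from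
`avf (fun t => f (-t)) h n g` by at most `2/n`. Extend `u` to a `Γ`-invariant function by `u (red g)`; null sets of `dG F` give null sets of `SL(2,ℝ)` (countable union of translates, GLI). -/
def VNE_stmt : Prop := ∀ (Γ : Subgroup SL(2, ℝ)) (F : Set ℍ) (p q : SL(2, ℝ) → ℝ) (f : ℝ → SL(2, ℝ) → SL(2, ℝ)) (h : SL(2, ℝ) → ℝ) (L : ℝ),
  QU.SurfaceGroup Γ → QU.NiceDom Γ F → FlG Γ p q f → Tf Γ L h →
  ∃ (u : SL(2, ℝ) → ℝ) (ns : ℕ → ℕ), Measurable u ∧ StrictMono ns ∧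
    (∀ᵐ g ∂mG, Tendsto (fun k => avf f h (ns k) g) atTop (𝓝 (u g)) ∧ Tendsto (fun k => avf (fun t => f (-t)) h (ns k) g) atTop (𝓝 (u g))) ∧
    Tendsto (fun n : ℕ => ∫ g in dG F, (avf f h n g - u g) ^ 2 ∂mG) atTop (𝓝 0)

/-- **Row LCL** (local coordinates, Lipschitz; medium; from NMB, SML, SME, STP, REV, ALP). `r = 1/1000`. `psi g z = g A B C`, `A = g⁻¹ f_t g`, `B = [[a_B, β],[y, a_B]]`, `β = -st'((f_t g) kJ, -y)` (reversed flow), `C = dg x (st (U_y f_t g) x)`. With `m = dist z z'`: `A - A' = (t-t')A0 + O((2r+2δ)m)` (SML), `|β - β'| ≤ m/4 + 750δ r m`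
(STP for the reversed flow, `nm ((f_t g)⁻¹ f_t' g) ≤ |t-t'|`), `|χ - χ'| ≤ m/4 + 750δ r·4m`, `|a_B - a_B'|, |a_C - a_C'| ≤ r m`, and all factors are within `2r` of `1`, so the matrix `M(z) = g⁻¹ psi g z` satisfies: `M(z) - M(z') - [[(t-t')/2, x-x'],[y-y', -(t-t')/2]]` has entries `≤ m/4 + 40 r m ≤ (3/10) m` off the diagonal and
`≤ 40 r m ≤ m/20` on the diagonal. The first assertion: `psi(z)⁻¹ psi(z') - 1 = M(z)⁻¹(M(z') - M(z))`. Continuity in `(g, z)`: STP, REV. -/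
def LCL_stmt : Prop := ∀ (δ : ℝ) (p q : SL(2, ℝ) → ℝ) (f : ℝ → SL(2, ℝ) → SL(2, ℝ)), 0 ≤ δ → δ ≤ 1 / 10000 → Fld δ p q → Flw p q f →
  ContinuousOn (fun x : SL(2, ℝ) × (Fin 3 → ℝ) => psi p q f x.1 x.2) (univ ×ˢ Icc (fun _ => -(1 / 1000)) (fun _ => 1 / 1000)) ∧
  ∀ (g : SL(2, ℝ)), ∀ z ∈ Icc (fun _ : Fin 3 => -(1 / 1000 : ℝ)) (fun _ => 1 / 1000), ∀ z' ∈ Icc (fun _ : Fin 3 => -(1 / 1000 : ℝ)) (fun _ => 1 / 1000),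
    nm ((psi p q f g z)⁻¹ * psi p q f g z') ≤ 4 * dist z z' ∧
    |(g⁻¹ * psi p q f g z).1 0 1 - (g⁻¹ * psi p q f g z').1 0 1 - (z 2 - z' 2)| ≤ 3 / 10 * dist z z' ∧
    |(g⁻¹ * psi p q f g z).1 1 0 - (g⁻¹ * psi p q f g z').1 1 0 - (z 1 - z' 1)| ≤ 3 / 10 * dist z z' ∧
    |(g⁻¹ * psi p q f g z).1 0 0 - (g⁻¹ * psi p q f g z').1 0 0 - (z 0 - z' 0) / 2| ≤ 1 / 20 * dist z z' ∧
    |(g⁻¹ * psi p q f g z).1 1 1 - (g⁻¹ * psi p q f g z').1 1 1 + (z 0 - z' 0) / 2| ≤ 1 / 20 * dist z z'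

/-- **Row LCS** (local coordinates, surjective; short-medium; from NMB, LCL). `Ω(z) = (M00 - M11, M10, M01)` of `M = g⁻¹ psi g z`; `Ω(0) = 0` (`psi g 0 = g`), `z ↦ Ω(z) - z` has Lipschitz constant `≤ 3/10` on the cube (sup norm) by LCL. `D` given, `w = (D00 - D11, D10, D01)`, `|w| ≤ 2 nm D ≤ 1/2000`: the map `z ↦ w - (Ω(z) - z)` is a contraction of the cube,
fixed point: `Ω(z) = w`. Two elements of `SL(2,ℝ)` with the same `a - d`, `b`, `c` and `a + d > 0` are equal (`(a+d)² = (a-d)² + 4(1+bc)`). -/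
def LCS_stmt : Prop := ∀ (δ : ℝ) (p q : SL(2, ℝ) → ℝ) (f : ℝ → SL(2, ℝ) → SL(2, ℝ)), 0 ≤ δ → δ ≤ 1 / 10000 → Fld δ p q → Flw p q f →
  ∀ g D : SL(2, ℝ), nm D ≤ 1 / 4000 → ∃ z ∈ Icc (fun _ : Fin 3 => -(1 / 1000 : ℝ)) (fun _ => 1 / 1000), psi p q f g z = g * D

/-- **Row HOF** (Hopf, local; medium; from NMB, STP, AVE, REV, NUL, NUI, ALP, LCL, LCS). `Ω` = the set of `g` where both averages along `ns` converge to `u g` (conull, measurable). If `g, g' ∈ Ω` and `g' = S_b g` (`|b| ≤ 1/8`) then `u g = u g'` (AVE: the difference of the averages is `≤ (L+1)/T`); the same for `U_y` (AVE for the reversed flow,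
`avf (rf f) (h(· kJ⁻¹)) T (g kJ) = avf (fun t => f(-t)) h T g`) and for `f_t` (`|avf T (f_t g) - avf T g| ≤ 2|t|/T`). For fixed `z` in the cube the three maps `f_t`, `U_y f_t`, `psi · z` pull back null sets to null sets (`FlG.mp`, NUL with ALP), so by Fubini (continuity, measurability of `Ωᶜ`) for a.e. `g` and a.e. `z` all of `g, f_t g, U_y f_t g, psi g z` are in `Ω`, hence
`u(psi g z) = u g`. For such a `g` the exceptional `z` are mapped to a null set (NUI, LCL) and `psi g` covers `{g D : nm D ≤ 1/4000}` (LCS). -/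
def HOF_stmt : Prop := ∀ (Γ : Subgroup SL(2, ℝ)) (δ L : ℝ) (p q : SL(2, ℝ) → ℝ) (f : ℝ → SL(2, ℝ) → SL(2, ℝ)) (h u : SL(2, ℝ) → ℝ) (ns : ℕ → ℕ),
  0 ≤ δ → δ ≤ 1 / 10000 → 0 ≤ L → Fld δ p q → FlG Γ p q f → Tf Γ L h → Measurable u → StrictMono ns →
  (∀ᵐ g ∂mG, Tendsto (fun k => avf f h (ns k) g) atTop (𝓝 (u g)) ∧ Tendsto (fun k => avf (fun t => f (-t)) h (ns k) g) atTop (𝓝 (u g))) →
  ∀ᵐ g ∂mG, ∀ᵐ g' ∂mG, nm (g⁻¹ * g') ≤ 1 / 4000 → u g' = u g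

/-- **Row HOC** (locally constant is constant; short-medium; from NMB). `Ω1` = the conull set of `g` in the hypothesis. If `g1, g2 ∈ Ω1` and `nm(g1⁻¹ g2)` is small, the open set `{g' : nm(g1⁻¹g'), nm(g2⁻¹g') < 1/4000}` is nonempty, has positive measure (`mG` is positive on open sets: it is left invariant and not `0`, or by the formula), so `u g1 = u g2`. `Ω1` is dense. Hence the set of
points near which `u` equals a given `c` on `Ω1` is open and closed; `SL(2,ℝ)` is connected (image of `ℍ × ℝ` under `toSL2R z * kM θ`). -/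
def HOC_stmt : Prop := ∀ u : SL(2, ℝ) → ℝ, Measurable u → (∀ᵐ g ∂mG, ∀ᵐ g' ∂mG, nm (g⁻¹ * g') ≤ 1 / 4000 → u g' = u g) → ∃ c : ℝ, ∀ᵐ g ∂mG, u g = c

/-- **Row MSR** (ergodicity; short; from VNE, HOF, HOC, RDM). `u = c` a.e.; `∫_{dG F} avf f h n = ∫_{dG F} h` (Fubini; `∫_{dG F} h(f s g) = ∫_{dG F} h`, RDM with `red`), so `|c - mean| mG(dG F) = |∫ (c - avf n)| ≤ (mG(dG F) ∫ (avf n - c)²)^{1/2} → 0`. -/
def MSR_stmt : Prop := ∀ (Γ : Subgroup SL(2, ℝ)) (F : Set ℍ) (δ L : ℝ) (p q : SL(2, ℝ) → ℝ) (f : ℝ → SL(2, ℝ) → SL(2, ℝ)) (h : SL(2, ℝ) → ℝ),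
  QU.SurfaceGroup Γ → QU.NiceDom Γ F → 0 ≤ δ → δ ≤ 1 / 10000 → 0 ≤ L → Fld δ p q → FlG Γ p q f → Tf Γ L h → MSC F f h

/-- **Row INS** (insurance: the unperturbed flow; medium; RS.A_QEX, RS.A_GFD). `h(g) = k(g • I)`. QEX for `±k` with `ε`: integrate over `dG F` and use right invariance (GFD): `∫_{dG F} exp(θ ∫_0^T k((g aM t)•I) dt) ≤ C mG(dG F) exp(θ(mean + ε)T)`, so `mG{avf ≥ mean + 2ε} ≤ C e^{-θεT}`; the same for `-k`; bounded functions converging in measure converge in `L²`. -/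
def INS_stmt : Prop := ∀ (Γ : Subgroup SL(2, ℝ)) (F : Set ℍ) (k : ℍ → ℝ), QU.SurfaceGroup Γ → QU.NiceDom Γ F → QU.Inv Γ k →
  MSC F (fun t g => g * aM t) (fun g => k (g • I))

/-! ## E. Uniformity along curves -/

/-- **Row CUR** (antilipschitz coordinates along a curve; medium; from NMB, SML, SME, STP). `r = 1/1000`, `v < v'` (or equal), `D = (γ v)⁻¹ γ v'`, `c = D10 ≤ r`, `|D01| + |D00 - D11| ≤ c/10`, `D00 + D11 > 0` (continuity in `v'`; it cannot vanish), so `nm D ≤ 1.1 c`. `f_t' (γ v') = f_t(γ v) E`, `E = E1 W`, `E1 = (f_t g)⁻¹ f_t(gD)` (entries of `E1 - D` are `≤ 6|t| nm D`, SME),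
`W = G⁻¹ f_(t'-t) G` (SML with `2r`), `nm E ≤ 1.3c + |t'-t|`. `R = C⁻¹ E C'`, `C = dg x (st .. x)`, `C' = dg x' (st .. x')`: `R - 1 = (D - 1) + (t'-t)A0 + [[0, x'-x],[χ'-χ, 0]] + error`, `|χ'-χ| ≤ |x'-x|/4 + 750δ r nm E`, `|error| ≤ 30 r m`, `m = max(c, |t'-t|, |x'-x|)`. If `m = c`: `|R10| ≥ (1 - 1/4 - 0.03)m`; if `m = |t'-t|`:
`|R00 - R11| ≥ (1 - 0.1 - 0.06)m`; if `m = |x'-x|`: `|R01| ≥ (1 - 0.1 - 0.03)m`. So `nm R ≥ m/4`, and `c ≥ (v'-v)/C1`. -/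
def CUR_stmt : Prop := ∀ (δ C1 : ℝ) (p q : SL(2, ℝ) → ℝ) (f : ℝ → SL(2, ℝ) → SL(2, ℝ)) (γ : ℝ → SL(2, ℝ)), 0 ≤ δ → δ ≤ 1 / 10000 → 1 ≤ C1 → Fld δ p q →
  Flw p q f → UC C1 (1 / 10) γ → ∀ v v' t t' x x' : ℝ, v ∈ Icc (0 : ℝ) 1 → v' ∈ Icc (0 : ℝ) 1 → C1 * |v - v'| ≤ 1 / 1000 → |t| ≤ 1 / 1000 → |t'| ≤ 1 / 1000 →
    |x| ≤ 1 / 1000 → |x'| ≤ 1 / 1000 →
    max (|v - v'| / C1) (max |t - t'| |x - x'|) / 4 ≤ nm ((Sb p q f x (f t (γ v)))⁻¹ * Sb p q f x' (f t' (γ v')))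

/-- **Row UWM** (uniform weak law; medium; from NMB, STP, AVE, NUA, FDK, CUR). `ℓ = 1/(1000 C1)`. If the bad set `B` (closed in `[0,1]`) has measure `> v0`, some interval `[v1, v1+ℓ] ⊆ [0,1]` (finitely many cover `[0,1]`) has `vol(B ∩ [v1,v1+ℓ]) ≥ v0 ℓ/2`; translate by `Γ` so that `γ v1 ∈ dG F`. `Θ(z) = Sb (z 2) (f (z 1) (γ (z 0)))` on
`Z = {z : z 0 ∈ B ∩ [v1,v1+ℓ], 0 ≤ z 1, z 2 ≤ 1/1000}`, `vol Z ≥ v0 ℓ 10⁻⁶/2`, maps into `A ∩ K`, `A = {g : e/2 ≤ |avf f h T g - mean|}` for `T ≥ T1(e, L)` (AVE and `|avf T (f_t g) - avf T g| ≤ 2|t|/T`), `K` the compact closure of `{g D : g ∈ dG F, nm D ≤ 1}`. CUR, NUA, FDK: `vol Z ≤ C m mG(A ∩ dG F)`, and `mG(A ∩ dG F) → 0` as `T → ∞` by MSC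
(Chebyshev; real `T`: `|avf T - avf ⌊T⌋| ≤ 2/T`). Contradiction for `T ≥ T0`. -/
def UWM_stmt : Prop := ∀ (Γ : Subgroup SL(2, ℝ)) (F : Set ℍ) (δ L : ℝ) (p q : SL(2, ℝ) → ℝ) (f : ℝ → SL(2, ℝ) → SL(2, ℝ)) (h : SL(2, ℝ) → ℝ),
  QU.SurfaceGroup Γ → QU.NiceDom Γ F → 0 ≤ δ → δ ≤ 1 / 10000 → 0 ≤ L → Fld δ p q → FlG Γ p q f → Tf Γ L h → MSC F f h →
  ∀ e v0 C1 : ℝ, 0 < e → 0 < v0 → 1 ≤ C1 → ∃ T0 : ℝ, 0 < T0 ∧ ∀ T : ℝ, T0 ≤ T → ∀ γ : ℝ → SL(2, ℝ), UC C1 (1 / 10) γ →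
    volume {v ∈ Icc (0 : ℝ) 1 | e ≤ |avf f h T (γ v) - mnG F h|} ≤ ENNReal.ofReal v0

/-- **Row CLO** (close fields; short-medium; from NMB). `E(t) = (f t g)⁻¹ f' t g`, `E(0) = 1`, the equations of the header with `P = p'(g2)`, `Q = q'(g2)`, `|P - p| ≤ δ nm E + ε`, so `N = (a-1)² + b² + c² + (d-1)²` satisfies `√N' ≤ 2√N + 4ε` while `N ≤ 1`: `nm E(t) ≤ 4ε e^{2t}` if this is `< 1`. Choose `ε` with `4ε e^{2T}(L + 1) ≤ e`. -/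
def CLO_stmt : Prop := ∀ (L T e : ℝ), 0 ≤ L → 0 < T → 0 < e → ∃ ε : ℝ, 0 < ε ∧ ∀ (Γ : Subgroup SL(2, ℝ)) (δ : ℝ) (p q p' q' : SL(2, ℝ) → ℝ) (f f' : ℝ → SL(2, ℝ) → SL(2, ℝ))
  (h : SL(2, ℝ) → ℝ), 0 ≤ δ → δ ≤ 1 / 100 → Fld δ p q → Flw p q f → Flw p' q' f' → (∀ g, |p' g - p g| ≤ ε) → (∀ g, |q' g - q g| ≤ ε) → Tf Γ L h →
  ∀ g, |avf f' h T g - avf f h T g| ≤ e

/-- **Row HLI** (short; from NMB). `dist (g D • I) (g • I) = dist (D • I) I ≤ 4 nm D` if `nm D ≤ 1/4` (`D•I = (ai+b)/(ci+d)`, `2 sinh(dist/2) = |D•I - i|/√(Im)`), and `|h - h| ≤ 1 ≤ 4 nm D` otherwise. The means: RS.A_GFD. -/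
def HLI_stmt : Prop := ∀ (Γ : Subgroup SL(2, ℝ)) (F : Set ℍ) (k : ℍ → ℝ), QU.SurfaceGroup Γ → QU.NiceDom Γ F → QU.Inv Γ k → (∀ z, 0 ≤ k z ∧ k z ≤ 1) →
  (∀ z w : ℍ, |k z - k w| ≤ dist z w) → Tf Γ 8 (fun g => k (g • I)) ∧ mnG F (fun g => k (g • I)) = (∫ z in F, k z) / (volume F).toReal

end

end Pool.Agent.VQE
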